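import Pool.Agent.OVW.A3Defs

/-!
# ALG: the numbers of a model of the basic axioms and of `IΣ₁` are a commutative semiring
-/

namespace Pool.Agent.OVW

namespace ALG

/-- Induction for equations. -/
lemma eqInd {𝔐 : Model} (hS : 𝔐.S.Nonempty) (B : Basic 𝔐) (s t : Term) (v : ℕ → 𝔐.M)
    (h0 : s.eval 𝔐 (Function.update v 0 𝔐.zero) = t.eval 𝔐 (Function.update v 0 𝔐.zero))
    (hs : ∀ a, s.eval 𝔐 (Function.update v 0 a) = t.eval 𝔐 (Function.update v 0 a) →
      s.eval 𝔐 (Function.update v 0 (𝔐.add a 𝔐.one)) =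
        t.eval 𝔐 (Function.update v 0 (𝔐.add a 𝔐.one))) (a : 𝔐.M) :
    s.eval 𝔐 (Function.update v 0 a) = t.eval 𝔐 (Function.update v 0 a) := by
  obtain ⟨A, hA⟩ := hS
  exact B.ind (.eq s t) (ExBlock.base (Form.Bounded.eq s t)) v (fun _ => A) (fun _ => hA) h0 hs a

/-- The assignment with the values `a` and `b` of the variables `1` and `2`. -/
def asg {𝔐 : Model} (a b : 𝔐.M) : ℕ → 𝔐.M := fun n => if n = 1 then a else b

lemma asg0 {𝔐 : Model} (a b c : 𝔐.M) : Function.update (asg a b) 0 c 0 = c := by simp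

lemma asg1 {𝔐 : Model} (a b c : 𝔐.M) : Function.update (asg a b) 0 c 1 = a := by
  simp [asg]

lemma asg2 {𝔐 : Model} (a b c : 𝔐.M) : Function.update (asg a b) 0 c 2 = b := by
  simp [asg]

variable {𝔐 : Model} (hS : 𝔐.S.Nonempty) (B : Basic 𝔐)

include hS B

lemma add_assoc (a b c : 𝔐.M) : 𝔐.add (𝔐.add a b) c = 𝔐.add a (𝔐.add b c) := by
  have h := eqInd hS B (.add (.add (.var 1) (.var 2)) (.var 0))
    (.add (.var 1) (.add (.var 2) (.var 0))) (asg a b) ?_ ?_ c
  · simpa only [Term.eval, asg0, asg1, asg2] using h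
  · simp only [Term.eval, asg0, asg1, asg2, B.add_zero]
  · intro d hd
    simp only [Term.eval, asg0, asg1, asg2] at hd ⊢
    rw [B.add_succ, B.add_succ, B.add_succ, hd]

lemma zero_add (a : 𝔐.M) : 𝔐.add 𝔐.zero a = a := by
  have h := eqInd hS B (.add .zero (.var 0)) (.var 0) (asg a a) ?_ ?_ a
  · simpa only [Term.eval, asg0] using h
  · simp only [Term.eval, asg0, B.add_zero]
  · intro d hd
    simp only [Term.eval, asg0] at hd ⊢
    rw [B.add_succ, hd]

lemma one_add (a : 𝔐.M) : 𝔐.add 𝔐.one a = 𝔐.add a 𝔐.one := by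
  have h := eqInd hS B (.add .one (.var 0)) (.add (.var 0) .one) (asg a a) ?_ ?_ a
  · simpa only [Term.eval, asg0] using h
  · simp only [Term.eval, asg0, B.add_zero, zero_add hS B]
  · intro d hd
    simp only [Term.eval, asg0] at hd ⊢
    rw [B.add_succ, hd]

lemma add_comm (a b : 𝔐.M) : 𝔐.add a b = 𝔐.add b a := by
  have h := eqInd hS B (.add (.var 1) (.var 0)) (.add (.var 0) (.var 1)) (asg a a) ?_ ?_ b
  · simpa only [Term.eval, asg0, asg1] using h
  · simp only [Term.eval, asg0, asg1, B.add_zero, zero_add hS B]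
  · intro d hd
    simp only [Term.eval, asg0, asg1] at hd ⊢
    rw [B.add_succ, hd, add_assoc hS B d 𝔐.one a, one_add hS B, ← add_assoc hS B]

lemma mul_add (a b c : 𝔐.M) : 𝔐.mul a (𝔐.add b c) = 𝔐.add (𝔐.mul a b) (𝔐.mul a c) := by
  have h := eqInd hS B (.mul (.var 1) (.add (.var 2) (.var 0)))
    (.add (.mul (.var 1) (.var 2)) (.mul (.var 1) (.var 0))) (asg a b) ?_ ?_ c
  · simpa only [Term.eval, asg0, asg1, asg2] using h
  · simp only [Term.eval, asg0, asg1, asg2, B.add_zero, B.mul_zero]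
  · intro d hd
    simp only [Term.eval, asg0, asg1, asg2] at hd ⊢
    rw [B.add_succ, B.mul_succ, B.mul_succ, hd, add_assoc hS B]

lemma zero_mul (a : 𝔐.M) : 𝔐.mul 𝔐.zero a = 𝔐.zero := by
  have h := eqInd hS B (.mul .zero (.var 0)) .zero (asg a a) ?_ ?_ a
  · simpa only [Term.eval, asg0] using h
  · simp only [Term.eval, asg0, B.mul_zero]
  · intro d hd
    simp only [Term.eval, asg0] at hd ⊢
    rw [B.mul_succ, hd, B.add_zero]

lemma one_mul (a : 𝔐.M) : 𝔐.mul 𝔐.one a = a := by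
  have h := eqInd hS B (.mul .one (.var 0)) (.var 0) (asg a a) ?_ ?_ a
  · simpa only [Term.eval, asg0] using h
  · simp only [Term.eval, asg0, B.mul_zero]
  · intro d hd
    simp only [Term.eval, asg0] at hd ⊢
    rw [B.mul_succ, hd]

lemma mul_one (a : 𝔐.M) : 𝔐.mul a 𝔐.one = a := by
  have h := B.mul_succ a 𝔐.zero
  rw [B.mul_zero, zero_add hS B, zero_add hS B] at h
  exact h

lemma succ_mul (a b : 𝔐.M) : 𝔐.mul (𝔐.add a 𝔐.one) b = 𝔐.add (𝔐.mul a b) b := by
  have h := eqInd hS B (.mul (.add (.var 1) .one) (.var 0))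
    (.add (.mul (.var 1) (.var 0)) (.var 0)) (asg a a) ?_ ?_ b
  · simpa only [Term.eval, asg0, asg1] using h
  · simp only [Term.eval, asg0, asg1, B.add_zero, B.mul_zero]
  · intro d hd
    simp only [Term.eval, asg0, asg1] at hd ⊢
    rw [B.mul_succ, B.mul_succ, hd, add_assoc hS B, add_assoc hS B, ← add_assoc hS B d a,
      add_comm hS B d a, add_assoc hS B]

lemma mul_comm (a b : 𝔐.M) : 𝔐.mul a b = 𝔐.mul b a := by
  have h := eqInd hS B (.mul (.var 1) (.var 0)) (.mul (.var 0) (.var 1)) (asg a a) ?_ ?_ b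
  · simpa only [Term.eval, asg0, asg1] using h
  · simp only [Term.eval, asg0, asg1, B.mul_zero, zero_mul hS B]
  · intro d hd
    simp only [Term.eval, asg0, asg1] at hd ⊢
    rw [B.mul_succ, succ_mul hS B, hd]

lemma mul_assoc (a b c : 𝔐.M) : 𝔐.mul (𝔐.mul a b) c = 𝔐.mul a (𝔐.mul b c) := by
  have h := eqInd hS B (.mul (.mul (.var 1) (.var 2)) (.var 0))
    (.mul (.var 1) (.mul (.var 2) (.var 0))) (asg a b) ?_ ?_ c
  · simpa only [Term.eval, asg0, asg1, asg2] using h
  · simp only [Term.eval, asg0, asg1, asg2, B.mul_zero]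
  · intro d hd
    simp only [Term.eval, asg0, asg1, asg2] at hd ⊢
    rw [B.mul_succ, B.mul_succ, mul_add hS B, hd]

lemma add_mul (a b c : 𝔐.M) : 𝔐.mul (𝔐.add a b) c = 𝔐.add (𝔐.mul a c) (𝔐.mul b c) := by
  rw [mul_comm hS B, mul_add hS B, mul_comm hS B c a, mul_comm hS B c b]

end ALG

theorem t_ALG : StmtALG := by
  intro 𝔐 hS B
  let i : CommSemiring 𝔐.M :=
    { add := 𝔐.add
      mul := 𝔐.mul
      zero := 𝔐.zero
      one := 𝔐.one
      add_assoc := ALG.add_assoc hS B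
      zero_add := ALG.zero_add hS B
      add_zero := B.add_zero
      add_comm := ALG.add_comm hS B
      nsmul := @nsmulRec 𝔐.M ⟨𝔐.zero⟩ ⟨𝔐.add⟩
      left_distrib := ALG.mul_add hS B
      right_distrib := ALG.add_mul hS B
      zero_mul := ALG.zero_mul hS B
      mul_zero := B.mul_zero
      mul_assoc := ALG.mul_assoc hS B
      one_mul := ALG.one_mul hS B
      mul_one := ALG.mul_one hS B
      mul_comm := ALG.mul_comm hS B }
  exact ⟨i, rfl, rfl, fun _ _ => rfl, fun _ _ => rfl⟩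

end Pool.Agent.OVW
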