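import Pool.Agent.OVW.A3Defs
import Pool.Agent.OVW.Lib1

/-!
# C1: from formulas to Worlds

`IΣ₁` and `IΣ₂` give `Ind1 A` and `Ind2 A` for the sets `A` of the model, and finitely many sets
of the model are recursive in one set of the model.
-/

set_option autoImplicit false

namespace Pool.Agent.OVW

namespace C1

/-- If `A` is recursive in `C`, then all the functions generated by `A` are generated by `C`. -/
theorem gen_sub {M : Type} [Arith M] {A C : Set M} (h : A ∈ SetsOf (GenS C)) :
    GenS A ⊆ GenS C := by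
  intro f hf
  induction hf with
  | const c => exact Gen.const c
  | id => exact Gen.id
  | fs => exact Gen.fs
  | sn => exact Gen.sn
  | add => exact Gen.add
  | mul => exact Gen.mul
  | lt => exact Gen.lt
  | chi => exact h
  | comp _ _ h1 h2 => exact Gen.comp h1 h2
  | pair _ _ h1 h2 => exact Gen.pair h1 h2
  | mu _ h1 h2 => exact Gen.mu h2 h1

/-- The variables of the arguments, `Σ₁` case. -/
def sg1 : ℕ → ℕ
  | 0 => 1
  | 1 => 0
  | i + 2 => 2 * i + 2

/-- The variables of the parameters, `Σ₁` case. -/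
def tu1 (i : ℕ) : ℕ := 2 * i + 3

/-- The variables of the arguments, `Σ₂` case. -/
def sg2 : ℕ → ℕ
  | 0 => 2
  | 1 => 1
  | 2 => 0
  | i + 3 => 2 * i + 3

/-- The variables of the parameters, `Σ₂` case. -/
def tu2 (i : ℕ) : ℕ := 2 * i + 4

/-- The assignment, `Σ₁` case. -/
def as1 {M : Type} (v c : ℕ → M) (j : ℕ) : M :=
  if j % 2 = 0 then v (j / 2 - 1) else c (j / 2 - 1)

/-- The assignment, `Σ₂` case. -/
def as2 {M : Type} (v c : ℕ → M) (j : ℕ) : M :=
  if j % 2 = 0 then c (j / 2 - 2) else v (j / 2 - 1)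

theorem as1_sg {M : Type} (v c : ℕ → M) (a y : M) (i : ℕ) :
    Function.update (Function.update (as1 v c) 0 a) 1 y (sg1 i) = push y (push a v) i := by
  match i with
  | 0 => simp [sg1, push]
  | 1 => simp [sg1, push]
  | i + 2 =>
    have h1 : (2 * i + 2) % 2 = 0 := by omega
    have h2 : (2 * i + 2) / 2 - 1 = i := by omega
    have h3 : sg1 (i + 2) = 2 * i + 2 := rfl
    rw [h3, Function.update_of_ne (by omega), Function.update_of_ne (by omega)]
    unfold as1
    rw [if_pos h1, h2]
    rfl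

theorem as1_tu {M : Type} (v c : ℕ → M) (a y : M) (i : ℕ) :
    Function.update (Function.update (as1 v c) 0 a) 1 y (tu1 i) = c i := by
  have h1 : ¬ (2 * i + 3) % 2 = 0 := by omega
  have h2 : (2 * i + 3) / 2 - 1 = i := by omega
  unfold tu1
  rw [Function.update_of_ne (by omega), Function.update_of_ne (by omega)]
  unfold as1
  rw [if_neg h1, h2]

theorem as2_sg {M : Type} (v c : ℕ → M) (a y z : M) (i : ℕ) :
    Function.update (Function.update (Function.update (as2 v c) 0 a) 1 y) 2 z (sg2 i) =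
      push z (push y (push a v)) i := by
  match i with
  | 0 => simp [sg2, push]
  | 1 => simp [sg2, push]
  | 2 => simp [sg2, push]
  | i + 3 =>
    have h1 : ¬ (2 * i + 3) % 2 = 0 := by omega
    have h2 : (2 * i + 3) / 2 - 1 = i := by omega
    have h3 : sg2 (i + 3) = 2 * i + 3 := rfl
    rw [h3, Function.update_of_ne (by omega), Function.update_of_ne (by omega),
      Function.update_of_ne (by omega)]
    unfold as2
    rw [if_neg h1, h2]
    rfl

theorem as2_tu {M : Type} (v c : ℕ → M) (a y z : M) (i : ℕ) :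
    Function.update (Function.update (Function.update (as2 v c) 0 a) 1 y) 2 z (tu2 i) = c i := by
  have h1 : (2 * i + 4) % 2 = 0 := by omega
  have h2 : (2 * i + 4) / 2 - 2 = i := by omega
  unfold tu2
  rw [Function.update_of_ne (by omega), Function.update_of_ne (by omega),
    Function.update_of_ne (by omega)]
  unfold as2
  rw [if_pos h1, h2]

/-- The semantic content of the substitution lemma. -/
abbrev SubH : Prop := ∀ (M : Type) [Arith M] (S : Set (Set M)) (φ : Form) (i : ℕ) (v : ℕ → M)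
  (V : ℕ → Set M),
  ((φ.subst i .zero).Sat (toModel M S) v V ↔ φ.Sat (toModel M S) (Function.update v i (0 : M)) V) ∧
  ((φ.subst i (.add (x i) .one)).Sat (toModel M S) v V ↔
    φ.Sat (toModel M S) (Function.update v i (v i + 1 : M)) V)

/-- An induction axiom, read in the structure. -/
theorem ind_read (hSub : SubH) {M : Type} [Arith M] {S : Set (Set M)} {ψ : Form}
    (hT : (toModel M S).True (induction 0 ψ)) (w : ℕ → M) (V : ℕ → Set M)
    (hV : ∀ X, V X ∈ S) (P : M → Prop)
    (hP : ∀ a : M, ψ.Sat (toModel M S) (Function.update w 0 a) V ↔ P a)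
    (h0 : P 0) (hs : ∀ a, P a → P (a + 1)) (a : M) : P a := by
  have h1 := hT w V hV
  simp only [induction, Form.Sat] at h1
  have hP' : ∀ b : M, ψ.Sat (toModel M S) (Function.update w 0 b) V ↔ P b := hP
  refine (hP' a).1 (h1 ⟨((hSub M S ψ 0 w V).1).2 ((hP' 0).2 h0), ?_⟩ a)
  intro (b : M) hb
  refine ((hSub M S ψ 0 (Function.update w 0 b) V).2).2 ?_
  have e : Function.update (Function.update w 0 b) 0 (Function.update w 0 b 0 + 1) =
      Function.update w 0 (b + 1) := by
    rw [Function.update_self, Function.update_idem]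
  exact (congrArg (fun u : ℕ → M => ψ.Sat (toModel M S) u V) e).mpr
    ((hP' (b + 1)).2 (hs b ((hP' b).1 hb)))

theorem ind1 (hTR : StmtTR) (hSub : SubH) {M : Type} [Arith M] {S : Set (Set M)}
    (hM : (toModel M S).Models theoryS) {A : Set M} (hA : A ∈ S) : Ind1 A := by
  intro Q hQ v h0 hs
  obtain ⟨k, n, c, hφ⟩ := hTR M S A Q hQ
  obtain ⟨φ, hB, hφ⟩ := hφ sg1 tu1
  refine ind_read hSub (S := S) (ψ := .ex 1 φ) (hM _ (Or.inl (Or.inl (Or.inr
    ⟨0, _, ExBlock.ex 1 (ExBlock.base hB), rfl⟩)))) (as1 v c) (fun _ => A) (fun _ => hA)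
    (fun a => ∃ y, Q (push y (push a v))) ?_ h0 hs
  intro a
  simp only [Form.Sat]
  refine exists_congr fun y => ?_
  exact hφ (push y (push a v)) _ _ rfl (fun i _ => as1_sg v c a y i)
    (fun i _ => as1_tu v c a y i)

theorem ind2 (hTR : StmtTR) (hSub : SubH) {M : Type} [Arith M] {S : Set (Set M)}
    (hM : (toModel M S).Models theoryS) {A : Set M} (hA : A ∈ S) : Ind2 A := by
  intro Q hQ v h0 hs
  obtain ⟨k, n, c, hφ⟩ := hTR M S A Q hQ
  obtain ⟨φ, hB, hφ⟩ := hφ sg2 tu2
  refine ind_read hSub (S := S) (ψ := .ex 1 (.all 2 φ)) (hM _ (Or.inr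
    ⟨0, _, ExBlock.ex 1 (ExBlock.base (AllBlock.all 2 (AllBlock.base hB))), rfl⟩))
    (as2 v c) (fun _ => A) (fun _ => hA)
    (fun a => ∃ y, ∀ z, Q (push z (push y (push a v)))) ?_ h0 hs
  intro a
  simp only [Form.Sat]
  refine exists_congr fun y => forall_congr' fun z => ?_
  exact hφ (push z (push y (push a v))) _ _ rfl (fun i _ => as2_sg v c a y z i)
    (fun i _ => as2_tu v c a y z i)

end C1

theorem t_C1 (hTR : StmtTR) (hJN : StmtJN)
    (hSub : ∀ (M : Type) [Arith M] (S : Set (Set M)) (φ : Form) (i : ℕ) (v : ℕ → M)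
      (V : ℕ → Set M),
      ((φ.subst i .zero).Sat (toModel M S) v V ↔
        φ.Sat (toModel M S) (Function.update v i (0 : M)) V) ∧
      ((φ.subst i (.add (x i) .one)).Sat (toModel M S) v V ↔
        φ.Sat (toModel M S) (Function.update v i (v i + 1 : M)) V)) : StmtC1 := by
  intro M _ S hne hM
  refine ⟨fun A hA => ⟨C1.ind1 hTR hSub hM hA, C1.ind2 hTR hSub hM hA⟩, ?_⟩
  intro k V hV
  have hD : (toModel M S).Models DeltaCA := fun θ hθ => hM θ (Or.inl (Or.inr hθ))
  induction k with
  | zero =>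
    obtain ⟨A, hA⟩ := hne
    exact ⟨A, hA, fun X hX => absurd hX (Nat.not_lt_zero X)⟩
  | succ k ih =>
    obtain ⟨A, hA, h1⟩ := ih
    obtain ⟨C, hC, h2, h3⟩ := hJN M S hD A hA (V k) (hV k)
    refine ⟨C, hC, fun X hX => ?_⟩
    rcases Nat.lt_succ_iff_lt_or_eq.1 hX with h4 | h4
    · exact C1.gen_sub h2 (h1 X h4)
    · rw [h4]
      exact h3

end Pool.Agent.OVW
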