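import Pool.Agent.OVW.A3Defs
import Pool.Agent.OVW.Lib1

/-!
# Block A3, JN: two sets have a common upper bound

The join `C` of `A` and `B` consists of the numbers `y + y` for `y` in `A` and `y + y + 1` for `y`
in `B`. It exists by comprehension for a bounded formula, and the characteristic functions of `A`
and `B` are generated by `C`.
-/

namespace Pool.Agent.OVW

namespace JN

/-- The formula which defines the join of `X₀` and `X₁`. -/
def phi : Form :=
  .ex 1 (.and (.lt (x 1) (.add (x 0) .one))
    (.or (.and (.eq (x 0) (.add (x 1) (x 1))) (.mem (x 1) 0))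
      (.and (.eq (x 0) (.add (.add (x 1) (x 1)) .one)) (.mem (x 1) 1))))

theorem phi_bounded : phi.Bounded := by
  unfold phi
  refine Form.Bounded.ex ?_ ?_
  · simp [Term.Occurs]
  · exact Form.Bounded.or (Form.Bounded.and (Form.Bounded.eq _ _) (Form.Bounded.mem _ _))
      (Form.Bounded.and (Form.Bounded.eq _ _) (Form.Bounded.mem _ _))

theorem phi_sigma : IsSigma 1 phi := ExBlock.base phi_bounded

theorem phi_pi : IsPi 1 phi := AllBlock.base phi_bounded

theorem phi_free : ¬ phi.FreeSet 2 := by
  simp [phi, Form.FreeSet]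

section

variable {M : Type} [Arith M]

theorem sat_phi (S : Set (Set M)) (v : ℕ → M) (V : ℕ → Set M) :
    phi.Sat (toModel M S) v V ↔
      ∃ y : M, y < v 0 + 1 ∧ ((v 0 = y + y ∧ y ∈ V 0) ∨ (v 0 = y + y + 1 ∧ y ∈ V 1)) := by
  constructor
  · rintro ⟨y, h⟩
    exact ⟨y, h⟩
  · rintro ⟨y, h⟩
    exact ⟨y, h⟩

theorem exists_join (S : Set (Set M)) (h : (toModel M S).Models DeltaCA) (A : Set M) (hA : A ∈ S)
    (B : Set M) (hB : B ∈ S) : ∃ C : Set M, C ∈ S ∧ ∀ z : M, z ∈ C ↔
      ∃ y : M, y < z + 1 ∧ ((z = y + y ∧ y ∈ A) ∨ (z = y + y + 1 ∧ y ∈ B)) := by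
  have hV : ∀ X : ℕ, (fun i : ℕ => if i = 1 then B else A) X ∈ S := by
    intro X
    by_cases hX : X = 1
    · simp only [hX, if_true]
      exact hB
    · simp only [hX, if_false]
      exact hA
  have key := h (comprehension 0 2 phi phi)
    ⟨0, 2, phi, phi, phi_sigma, phi_pi, phi_free, rfl⟩ (fun _ => (0 : M))
    (fun i : ℕ => if i = 1 then B else A) hV
  obtain ⟨C, hC, hC2⟩ := key (fun a => ⟨fun h => h, fun h => h⟩)
  refine ⟨C, hC, fun z => ?_⟩
  have h1 : (z ∈ C → phi.Sat (toModel M S) (Function.update (fun _ : ℕ => (0 : M)) 0 z)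
        (Function.update (fun i : ℕ => if i = 1 then B else A) 2 C)) ∧
      (phi.Sat (toModel M S) (Function.update (fun _ : ℕ => (0 : M)) 0 z)
        (Function.update (fun i : ℕ => if i = 1 then B else A) 2 C) → z ∈ C) := hC2 z
  have h2 := sat_phi S (Function.update (fun _ : ℕ => (0 : M)) 0 z)
    (Function.update (fun i : ℕ => if i = 1 then B else A) 2 C)
  exact ⟨fun hz => h2.1 (h1.1 hz), fun hz => h1.2 (h2.2 hz)⟩

theorem double_inj {a b : M} (h : a + a = b + b) : a = b := by
  rcases lt_trichotomy a b with h1 | h1 | h1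
  · exact absurd h (add_lt_add h1 h1).ne
  · exact h1
  · exact absurd h (add_lt_add h1 h1).ne'

theorem double_ne {a b : M} : a + a ≠ b + b + 1 := by
  intro h
  rcases lt_or_ge b a with h1 | h1
  · have h2 : b + 1 ≤ a := succ_le.2 h1
    have h3 : b + b + 1 < a + a := by
      calc b + b + 1 = b + (b + 1) := add_assoc _ _ _
        _ ≤ b + a := add_le_add_right h2 b
        _ < a + a := add_lt_add_left h1 a
    exact absurd h h3.ne'
  · have h3 : a + a < b + b + 1 := lt_succ.2 (add_le_add h1 h1)
    exact absurd h h3.ne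

theorem gen_double {C : Set M} : Gen C (fun a => a + a) := by
  have h := Gen.comp (X := C) Gen.add (Gen.pair Gen.id Gen.id)
  simpa only [fs_pr, sn_pr] using h

theorem gen_double_succ {C : Set M} : Gen C (fun a => a + a + 1) := by
  have h := Gen.comp (X := C) Gen.add (Gen.pair gen_double (Gen.const 1))
  simpa only [fs_pr, sn_pr] using h

end

end JN

theorem t_JN : StmtJN := by
  intro M _ S h A hA B hB
  obtain ⟨C, hC, hC3⟩ := JN.exists_join S h A hA B hB
  refine ⟨C, hC, ?_, ?_⟩
  · have e : chi A = fun a => chi C (a + a) := by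
      funext a
      unfold chi
      have : a + a ∈ C ↔ a ∈ A := by
        rw [hC3]
        constructor
        · rintro ⟨y, -, ⟨h1, h2⟩ | ⟨h1, -⟩⟩
          · rwa [JN.double_inj h1]
          · exact absurd h1 JN.double_ne
        · intro ha
          exact ⟨a, lt_succ.2 le_self_add, Or.inl ⟨rfl, ha⟩⟩
      by_cases ha : a ∈ A
      · rw [if_pos ha, if_pos (this.2 ha)]
      · rw [if_neg ha, if_neg (fun h' => ha (this.1 h'))]
    show Gen C (chi A)
    rw [e]
    exact Gen.comp Gen.chi JN.gen_double
  · have e : chi B = fun a => chi C (a + a + 1) := by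
      funext a
      unfold chi
      have : a + a + 1 ∈ C ↔ a ∈ B := by
        rw [hC3]
        constructor
        · rintro ⟨y, -, ⟨h1, -⟩ | ⟨h1, h2⟩⟩
          · exact absurd h1.symm JN.double_ne
          · rwa [JN.double_inj (add_right_cancel h1)]
        · intro ha
          refine ⟨a, ?_, Or.inr ⟨rfl, ha⟩⟩
          refine lt_succ.2 ?_
          rw [add_assoc]
          exact le_self_add
      by_cases ha : a ∈ B
      · rw [if_pos ha, if_pos (this.2 ha)]
      · rw [if_neg ha, if_neg (fun h' => ha (this.1 h'))]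
    show Gen C (chi B)
    rw [e]
    exact Gen.comp Gen.chi JN.gen_double_succ

end Pool.Agent.OVW
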