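import Pool.Agent.OVW.A3Defs

/-!
# KF: the ordered field of fractions of an ordered semiring with cancellation

The field consists of the classes of the formal fractions `(a - b) / c` with `0 < c`.
-/

set_option linter.unusedSectionVars false

namespace Pool.Agent.OVW

namespace KF

/-- The formal fraction `(a - b) / c`. -/
structure Fr (M : Type) [CommSemiring M] [LinearOrder M] where
  /-- the first number -/
  a : M
  /-- the second number -/
  b : M
  /-- the denominator -/
  c : M
  pos : 0 < c

variable {M : Type} [CommSemiring M] [LinearOrder M] [IsStrictOrderedRing M]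

instance : LE (Fr M) := ⟨fun x y => x.a * y.c + y.b * x.c ≤ y.a * x.c + x.b * y.c⟩

theorem le_def (x y : Fr M) :
    x ≤ y ↔ x.a * y.c + y.b * x.c ≤ y.a * x.c + x.b * y.c := Iff.rfl

theorem le_trans' {x y z : Fr M} (h1 : x ≤ y) (h2 : y ≤ z) : x ≤ z := by
  rw [le_def] at h1 h2 ⊢
  refine le_of_mul_le_mul_right ?_ y.pos
  have h3 := add_le_add (mul_le_mul_of_nonneg_right h1 z.pos.le)
    (mul_le_mul_of_nonneg_right h2 x.pos.le)
  refine le_of_add_le_add_right (a := y.b * x.c * z.c + y.a * x.c * z.c) ?_
  calc (x.a * z.c + z.b * x.c) * y.c + (y.b * x.c * z.c + y.a * x.c * z.c)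
      = (x.a * y.c + y.b * x.c) * z.c + (y.a * z.c + z.b * y.c) * x.c := by ring
    _ ≤ _ := h3
    _ = _ := by ring

instance : Preorder (Fr M) where
  le_refl x := by
    rw [le_def]
  le_trans x y z := le_trans'

instance : Std.Total (α := Fr M) (· ≤ ·) := ⟨fun x y => by
  simp only [le_def]
  exact le_total (x.a * y.c + y.b * x.c) (y.a * x.c + x.b * y.c)⟩

variable (M) in
/-- The field of fractions. -/
abbrev Kf := Antisymmetrization (Fr M) (· ≤ ·)

/-- The class of a formal fraction. -/
def mk (x : Fr M) : Kf M := toAntisymmetrization (· ≤ ·) x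

theorem rel_iff {x y : Fr M} :
    AntisymmRel (· ≤ ·) x y ↔ x.a * y.c + y.b * x.c = y.a * x.c + x.b * y.c :=
  ⟨fun h => le_antisymm h.1 h.2, fun h => ⟨h.le, h.symm.le⟩⟩

theorem eq_iff {x y : Fr M} :
    mk x = mk y ↔ x.a * y.c + y.b * x.c = y.a * x.c + x.b * y.c := by
  rw [← rel_iff]
  exact Quotient.eq''

theorem le_iff {x y : Fr M} :
    mk x ≤ mk y ↔ x.a * y.c + y.b * x.c ≤ y.a * x.c + x.b * y.c := Iff.rfl

theorem ind {P : Kf M → Prop} (h : ∀ x, P (mk x)) (x : Kf M) : P x :=
  Quotient.inductionOn' x h

/-- the sum -/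
def addF (x y : Fr M) : Fr M :=
  ⟨x.a * y.c + y.a * x.c, x.b * y.c + y.b * x.c, x.c * y.c, mul_pos x.pos y.pos⟩

/-- the product -/
def mulF (x y : Fr M) : Fr M :=
  ⟨x.a * y.a + x.b * y.b, x.a * y.b + x.b * y.a, x.c * y.c, mul_pos x.pos y.pos⟩

/-- the negative -/
def negF (x : Fr M) : Fr M := ⟨x.b, x.a, x.c, x.pos⟩

instance : Add (Kf M) := ⟨Quotient.map₂ addF (by
  intro x x' hx y y' hy
  have hx := rel_iff.1 hx
  have hy := rel_iff.1 hy
  refine rel_iff.2 ?_
  simp only [addF]
  calc (x.a * y.c + y.a * x.c) * (x'.c * y'.c) + (x'.b * y'.c + y'.b * x'.c) * (x.c * y.c)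
      = (x.a * x'.c + x'.b * x.c) * (y.c * y'.c) + (y.a * y'.c + y'.b * y.c) * (x.c * x'.c) := by
        ring
    _ = (x'.a * x.c + x.b * x'.c) * (y.c * y'.c) + (y'.a * y.c + y.b * y'.c) * (x.c * x'.c) := by
        rw [hx, hy]
    _ = _ := by ring)⟩

instance : Neg (Kf M) := ⟨Quotient.map negF (by
  intro x x' hx
  have hx := rel_iff.1 hx
  refine rel_iff.2 ?_
  simp only [negF]
  calc x.b * x'.c + x'.a * x.c = x'.a * x.c + x.b * x'.c := add_comm _ _
    _ = x.a * x'.c + x'.b * x.c := hx.symm
    _ = _ := add_comm _ _)⟩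

theorem mulF_comm (x y : Fr M) : mulF x y = mulF y x := by
  simp only [mulF, Fr.mk.injEq]
  refine ⟨by ring, by ring, by ring⟩

theorem mulF_congr {x x' : Fr M} (y : Fr M) (hx : AntisymmRel (· ≤ ·) x x') :
    AntisymmRel (· ≤ ·) (mulF x y) (mulF x' y) := by
  have hx := rel_iff.1 hx
  refine rel_iff.2 ?_
  simp only [mulF]
  calc (x.a * y.a + x.b * y.b) * (x'.c * y.c) + (x'.a * y.b + x'.b * y.a) * (x.c * y.c)
      = y.c * (y.a * (x.a * x'.c + x'.b * x.c) + y.b * (x'.a * x.c + x.b * x'.c)) := by ring
    _ = y.c * (y.a * (x'.a * x.c + x.b * x'.c) + y.b * (x.a * x'.c + x'.b * x.c)) := by rw [hx]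
    _ = _ := by ring

instance : Mul (Kf M) := ⟨Quotient.map₂ mulF (by
  intro x x' hx y y' hy
  have h1 := mulF_congr y hx
  have h2 := mulF_congr x' hy
  rw [mulF_comm y x', mulF_comm y' x'] at h2
  exact h1.trans h2)⟩

instance : Zero (Kf M) := ⟨mk ⟨0, 0, 1, zero_lt_one⟩⟩

instance : One (Kf M) := ⟨mk ⟨1, 0, 1, zero_lt_one⟩⟩

theorem mk_add (x y : Fr M) : mk x + mk y = mk (addF x y) := rfl

theorem mk_mul (x y : Fr M) : mk x * mk y = mk (mulF x y) := rfl

theorem mk_neg (x : Fr M) : -mk x = mk (negF x) := rfl

theorem zero_def : (0 : Kf M) = mk ⟨0, 0, 1, zero_lt_one⟩ := rfl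

theorem one_def : (1 : Kf M) = mk ⟨1, 0, 1, zero_lt_one⟩ := rfl

instance : CommRing (Kf M) where
  add_assoc := by
    intro x y z
    induction x using ind with | h x
    induction y using ind with | h y
    induction z using ind with | h z
    simp only [mk_add, eq_iff, addF]
    ring
  zero_add := by
    intro x
    induction x using ind with | h x
    simp only [zero_def, mk_add, eq_iff, addF]
    ring
  add_zero := by
    intro x
    induction x using ind with | h x
    simp only [zero_def, mk_add, eq_iff, addF]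
    ring
  nsmul := nsmulRec
  add_comm := by
    intro x y
    induction x using ind with | h x
    induction y using ind with | h y
    simp only [mk_add, eq_iff, addF]
    ring
  left_distrib := by
    intro x y z
    induction x using ind with | h x
    induction y using ind with | h y
    induction z using ind with | h z
    simp only [mk_add, mk_mul, eq_iff, addF, mulF]
    ring
  right_distrib := by
    intro x y z
    induction x using ind with | h x
    induction y using ind with | h y
    induction z using ind with | h z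
    simp only [mk_add, mk_mul, eq_iff, addF, mulF]
    ring
  zero_mul := by
    intro x
    induction x using ind with | h x
    simp only [zero_def, mk_mul, eq_iff, mulF]
    ring
  mul_zero := by
    intro x
    induction x using ind with | h x
    simp only [zero_def, mk_mul, eq_iff, mulF]
    ring
  mul_assoc := by
    intro x y z
    induction x using ind with | h x
    induction y using ind with | h y
    induction z using ind with | h z
    simp only [mk_mul, eq_iff, mulF]
    ring
  one_mul := by
    intro x
    induction x using ind with | h x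
    simp only [one_def, mk_mul, eq_iff, mulF]
    ring
  mul_one := by
    intro x
    induction x using ind with | h x
    simp only [one_def, mk_mul, eq_iff, mulF]
    ring
  zsmul := zsmulRec
  neg_add_cancel := by
    intro x
    induction x using ind with | h x
    simp only [zero_def, mk_neg, mk_add, eq_iff, addF, negF]
    ring
  mul_comm := by
    intro x y
    induction x using ind with | h x
    induction y using ind with | h y
    simp only [mk_mul, eq_iff, mulF]
    ring

noncomputable instance : LinearOrder (Kf M) :=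
  { instPartialOrderAntisymmetrization with
    le_total := by
      intro x y
      induction x using ind with | h x
      induction y using ind with | h y
      exact le_total (x.a * y.c + y.b * x.c) (y.a * x.c + x.b * y.c)
    toDecidableLE := Classical.decRel _ }

theorem lt_iff {x y : Fr M} :
    mk x < mk y ↔ x.a * y.c + y.b * x.c < y.a * x.c + x.b * y.c := by
  rw [← not_le, le_iff, not_le]

theorem pos_iff {x : Fr M} : 0 < mk x ↔ x.b < x.a := by
  rw [zero_def, lt_iff]
  simp

instance : IsOrderedAddMonoid (Kf M) where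
  add_le_add_left := by
    intro x y h z
    induction x using ind with | h x
    induction y using ind with | h y
    induction z using ind with | h z
    rw [le_iff] at h
    rw [mk_add, mk_add, le_iff]
    simp only [addF]
    have h1 := add_le_add_left (mul_le_mul_of_nonneg_right h (mul_pos z.pos z.pos).le)
      ((z.a + z.b) * z.c * x.c * y.c)
    refine le_trans (le_of_eq ?_) (h1.trans (le_of_eq ?_))
    · ring
    · ring

theorem zero_lt_one' : (0 : Kf M) < 1 := by
  rw [one_def, pos_iff]
  exact zero_lt_one

variable [CanonicallyOrderedAdd M]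

instance : IsStrictOrderedRing (Kf M) := by
  have h0 : ZeroLEOneClass (Kf M) := ⟨zero_lt_one'.le⟩
  have h1 : Nontrivial (Kf M) := ⟨0, 1, zero_lt_one'.ne⟩
  refine IsStrictOrderedRing.of_mul_pos ?_
  intro x y hx hy
  induction x using ind with | h x
  induction y using ind with | h y
  rw [pos_iff] at hx hy
  rw [mk_mul, pos_iff]
  simp only [mulF]
  exact mul_add_mul_lt_mul_add_mul' hx hy

theorem inv_pos (x : Kf M) (h : 0 < x) : ∃ y, x * y = 1 := by
  induction x using ind with | h x
  rw [pos_iff] at h
  obtain ⟨d, hd⟩ := exists_add_of_le h.le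
  have hd0 : 0 < d := by
    rw [hd] at h
    exact pos_of_lt_add_right h
  refine ⟨mk ⟨x.c, 0, d, hd0⟩, ?_⟩
  rw [mk_mul, one_def, eq_iff]
  simp only [mulF]
  rw [hd]
  ring

theorem isField : IsField (Kf M) := by
  refine ⟨⟨0, 1, zero_lt_one'.ne⟩, mul_comm, ?_⟩
  intro x hx
  rcases lt_or_gt_of_ne hx with h | h
  · obtain ⟨y, hy⟩ := inv_pos (-x) (neg_pos.2 h)
    exact ⟨-y, by rw [mul_neg, ← neg_mul]; exact hy⟩
  · exact inv_pos x h

/-- The embedding. -/
def emb : M →+* Kf M where
  toFun m := mk ⟨m, 0, 1, zero_lt_one⟩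
  map_one' := rfl
  map_mul' x y := by
    rw [mk_mul, eq_iff]
    simp only [mulF]
    ring
  map_zero' := rfl
  map_add' x y := by
    rw [mk_add, eq_iff]
    simp only [addF]
    ring

theorem emb_def (m : M) : emb m = mk ⟨m, 0, 1, zero_lt_one⟩ := rfl

theorem emb_strictMono : StrictMono (emb : M →+* Kf M) := by
  intro x y h
  rw [emb_def, emb_def, lt_iff]
  simpa using h

theorem emb_surj (x : Kf M) : ∃ a b c : M, c ≠ 0 ∧ x * emb c = emb a - emb b := by
  induction x using ind with | h x
  refine ⟨x.a, x.b, x.c, x.pos.ne', ?_⟩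
  rw [sub_eq_add_neg, emb_def, emb_def, emb_def, mk_neg, mk_mul, mk_add, eq_iff]
  simp only [addF, mulF, negF]
  ring

end KF

/-- KF. -/
theorem t_KF : StmtKF := by
  intro M _ _ _ _
  exact ⟨KF.Kf M, KF.isField.toField, inferInstance,
    (inferInstance : IsStrictOrderedRing (KF.Kf M)), KF.emb, KF.emb_strictMono, KF.emb_surj⟩

end Pool.Agent.OVW
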