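import Pool.Agent.OVW.A3Defs

/-!
# The numbers of a model are discretely ordered (module OVW_ORD)
-/

namespace Pool.Agent.OVW.ORD

/-- the order of a cancellative commutative semiring without zero sums -/
theorem core (R : Type) [CommSemiring R] (lt : R → R → Prop) (succ_ne : ∀ a : R, a + 1 ≠ 0)
    (cs : ∀ a : R, a = 0 ∨ ∃ b, a = b + 1) (lt_iff : ∀ a b, lt a b ↔ ∃ c, b = a + (c + 1))
    (canc : ∀ a b c : R, a + c = b + c → a = b) (tri : ∀ a b, lt a b ∨ a = b ∨ lt b a) :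
    ∃ _ : LinearOrder R, IsStrictOrderedRing R ∧ CanonicallyOrderedAdd R ∧
      (∀ a : R, a < 1 → a = 0) ∧ ∀ a b : R, a < b ↔ lt a b := by
  classical
  have zsf : ∀ a b : R, a + b = 0 → b = 0 := by
    intro a b h
    rcases cs b with hb | ⟨d, hd⟩
    · exact hb
    · exfalso
      rw [hd, ← add_assoc] at h
      exact succ_ne _ h
  let L : LinearOrder R := {
    le := fun a b => ∃ c, b = a + c
    le_refl := fun a => ⟨0, (add_zero a).symm⟩
    le_trans := by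
      rintro a b c ⟨d, rfl⟩ ⟨e, rfl⟩
      exact ⟨d + e, add_assoc _ _ _⟩
    le_antisymm := by
      rintro a b ⟨c, hc⟩ ⟨d, hd⟩
      have h1 : 0 + a = (c + d) + a := by
        rw [zero_add]
        calc a = b + d := hd
          _ = a + c + d := by rw [hc]
          _ = (c + d) + a := by ring
      have h2 := canc _ _ _ h1
      have h3 := zsf _ _ h2.symm
      rw [hd, h3, add_zero]
    le_total := by
      intro a b
      rcases tri a b with h | h | h
      · obtain ⟨c, hc⟩ := (lt_iff a b).1 h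
        exact Or.inl ⟨_, hc⟩
      · exact Or.inl ⟨0, by rw [h, add_zero]⟩
      · obtain ⟨c, hc⟩ := (lt_iff b a).1 h
        exact Or.inr ⟨_, hc⟩
    toDecidableLE := Classical.decRel _ }
  have hle : ∀ a b : R, a ≤ b ↔ ∃ c, b = a + c := fun a b => Iff.rfl
  have hlt : ∀ a b : R, a < b ↔ lt a b := by
    intro a b
    rw [lt_iff_le_not_ge, lt_iff]
    constructor
    · rintro ⟨⟨c, hc⟩, h2⟩
      rcases cs c with h3 | ⟨d, hd⟩
      · exfalso
        apply h2
        exact ⟨0, by rw [hc, h3, add_zero, add_zero]⟩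
      · exact ⟨d, by rw [hc, hd]⟩
    · rintro ⟨c, hc⟩
      refine ⟨⟨_, hc⟩, ?_⟩
      rintro ⟨d, hd⟩
      have h1 : 0 + a = ((c + d) + 1) + a := by
        rw [zero_add]
        calc a = b + d := hd
          _ = a + (c + 1) + d := by rw [hc]
          _ = ((c + d) + 1) + a := by ring
      exact succ_ne _ (canc _ _ _ h1).symm
  have hlt' : ∀ a b : R, a < b ↔ ∃ c, b = a + (c + 1) := fun a b => (hlt a b).trans (lt_iff a b)
  refine ⟨L, ?_, ?_, ?_, hlt⟩
  · have hmul : ∀ a : R, 0 < a → ∀ b c : R, b < c → a * b < a * c := by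
      intro a ha b c hbc
      obtain ⟨e, he⟩ := (hlt' _ _).1 ha
      obtain ⟨f, hf⟩ := (hlt' _ _).1 hbc
      refine (hlt' _ _).2 ⟨e * f + e + f, ?_⟩
      rw [hf, he]
      ring
    exact {
      add_le_add_left := by
        rintro a b ⟨d, hd⟩ c
        exact ⟨d, by rw [hd]; ring⟩
      le_of_add_le_add_left := by
        rintro a b c ⟨d, hd⟩
        refine ⟨d, canc _ _ a ?_⟩
        rw [add_comm c a, hd]
        ring
      zero_le_one := ⟨1, (zero_add 1).symm⟩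
      exists_pair_ne := ⟨0 + 1, 0, succ_ne 0⟩
      mul_lt_mul_of_pos_left := fun a ha b c h => hmul a ha b c h
      mul_lt_mul_of_pos_right := fun c hc a b h => by
        rw [mul_comm a c, mul_comm b c]
        exact hmul c hc a b h }
  · exact {
      exists_add_of_le := fun {a b} h => h
      le_add_self := fun a b => ⟨b, add_comm _ _⟩
      le_self_add := fun a b => ⟨b, rfl⟩ }
  · intro a ha
    obtain ⟨c, hc⟩ := (hlt' _ _).1 ha
    have h1 : 0 + 1 = (c + a) + 1 := by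
      rw [zero_add]
      calc (1 : R) = a + (c + 1) := hc
        _ = (c + a) + 1 := by ring
    exact zsf _ _ (canc _ _ _ h1).symm

/-- induction for a predicate given by a formula -/
theorem indP {𝔐 : Model} (hB : Basic 𝔐) (hS : 𝔐.S.Nonempty) (P : 𝔐.M → Prop) (φ : Form)
    (hφ : IsSigma 1 φ) (v : ℕ → 𝔐.M)
    (h : ∀ (V : ℕ → Set 𝔐.M) a, φ.Sat 𝔐 (Function.update v 0 a) V ↔ P a)
    (h0 : P 𝔐.zero) (hs : ∀ a, P a → P (𝔐.add a 𝔐.one)) : ∀ a, P a := by
  obtain ⟨A, hA⟩ := hS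
  intro a
  rw [← h (fun _ => A)]
  refine hB.ind φ hφ v (fun _ => A) (fun _ => hA) ?_ ?_ a
  · rw [h]; exact h0
  · intro b hb
    rw [h] at hb ⊢
    exact hs b hb

theorem cases_zero {𝔐 : Model} (hB : Basic 𝔐) (hS : 𝔐.S.Nonempty) :
    ∀ a, ∃ b, a = 𝔐.zero ∨ a = 𝔐.add b 𝔐.one := by
  refine indP hB hS _ (.ex 1 (.or (.eq (x 0) .zero) (.eq (x 0) (.add (x 1) .one)))) ?_
    (fun _ => 𝔐.zero) ?_ ?_ ?_
  · exact ExBlock.ex 1 (ExBlock.base (.or (.eq _ _) (.eq _ _)))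
  · intro V a
    simp [Form.Sat, Term.eval, Function.update]
  · exact ⟨𝔐.zero, Or.inl rfl⟩
  · intro a _
    exact ⟨a, Or.inr rfl⟩

theorem lt_add {𝔐 : Model} (hB : Basic 𝔐) (hS : 𝔐.S.Nonempty) (a : 𝔐.M) :
    ∀ c, 𝔐.lt a (𝔐.add a (𝔐.add c 𝔐.one)) := by
  have h1 : ∀ a, 𝔐.lt a (𝔐.add a 𝔐.one) := fun a => (hB.lt_succ a a).2 (Or.inr rfl)
  refine indP hB hS _ (.lt (x 1) (.add (x 1) (.add (x 0) .one))) ?_ (fun _ => a) ?_ ?_ ?_
  · exact ExBlock.base (.lt _ _)
  · intro V b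
    simp [Form.Sat, Term.eval, Function.update]
  · rw [hB.add_succ, hB.add_zero]
    exact h1 a
  · intro c hc
    rw [hB.add_succ]
    exact (hB.lt_succ _ _).2 (Or.inl hc)

theorem exists_of_lt {𝔐 : Model} (hB : Basic 𝔐) (hS : 𝔐.S.Nonempty) (a : 𝔐.M) :
    ∀ b, ∃ c, 𝔐.lt a b → b = 𝔐.add a (𝔐.add c 𝔐.one) := by
  refine indP hB hS _ (.ex 2 (.imp (.lt (x 1) (x 0))
    (.eq (x 0) (.add (x 1) (.add (x 2) .one))))) ?_ (fun _ => a) ?_ ?_ ?_
  · exact ExBlock.ex 2 (ExBlock.base (.imp (.lt _ _) (.eq _ _)))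
  · intro V b
    simp [Form.Sat, Term.eval, Function.update]
  · exact ⟨a, fun h => absurd h (hB.not_lt_zero _)⟩
  · rintro b ⟨c, hc⟩
    by_cases h : 𝔐.lt a b
    · refine ⟨𝔐.add c 𝔐.one, fun _ => ?_⟩
      rw [hB.add_succ a (𝔐.add c 𝔐.one), ← hc h]
    · refine ⟨𝔐.zero, fun h2 => ?_⟩
      rcases (hB.lt_succ _ _).1 h2 with h3 | h3
      · exact absurd h3 h
      · rw [hB.add_succ, hB.add_zero, h3]

theorem cancel {𝔐 : Model} (hB : Basic 𝔐) (hS : 𝔐.S.Nonempty) (a b : 𝔐.M) :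
    ∀ c, 𝔐.add a c = 𝔐.add b c → a = b := by
  refine indP hB hS _ (.imp (.eq (.add (x 1) (x 0)) (.add (x 2) (x 0))) (.eq (x 1) (x 2))) ?_
    (fun n => if n = 1 then a else b) ?_ ?_ ?_
  · exact ExBlock.base (.imp (.eq _ _) (.eq _ _))
  · intro V c
    simp [Form.Sat, Term.eval, Function.update]
  · intro h
    rwa [hB.add_zero, hB.add_zero] at h
  · intro c hc h
    rw [hB.add_succ, hB.add_succ] at h
    exact hc (hB.succ_inj _ _ h)

theorem tri {𝔐 : Model} (hB : Basic 𝔐) (hS : 𝔐.S.Nonempty)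
    (hz : ∀ a, 𝔐.add 𝔐.zero a = a)
    (hsw : ∀ a c, 𝔐.add a (𝔐.add c 𝔐.one) = 𝔐.add (𝔐.add a 𝔐.one) c) (b : 𝔐.M) :
    ∀ a, 𝔐.lt a b ∨ a = b ∨ 𝔐.lt b a := by
  refine indP hB hS _ (.or (.lt (x 0) (x 1)) (.or (.eq (x 0) (x 1)) (.lt (x 1) (x 0)))) ?_
    (fun _ => b) ?_ ?_ ?_
  · exact ExBlock.base (.or (.lt _ _) (.or (.eq _ _) (.lt _ _)))
  · intro V a
    simp [Form.Sat, Term.eval, Function.update]
  · obtain ⟨c, hc | hc⟩ := cases_zero hB hS b
    · exact Or.inr (Or.inl hc.symm)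
    · left
      have h1 := lt_add hB hS 𝔐.zero c
      rw [hz, ← hc] at h1
      exact h1
  · intro a ha
    rcases ha with ha | ha | ha
    · obtain ⟨c, hc⟩ := exists_of_lt hB hS a b
      have hc' := hc ha
      obtain ⟨d, hd | hd⟩ := cases_zero hB hS c
      · right; left
        rw [hc', hsw, hd, hB.add_zero]
      · left
        have h1 := lt_add hB hS (𝔐.add a 𝔐.one) d
        rw [← hd, ← hsw, ← hc'] at h1
        exact h1
    · right; right
      exact (hB.lt_succ _ _).2 (Or.inr ha.symm)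
    · right; right
      exact (hB.lt_succ _ _).2 (Or.inl ha)

end Pool.Agent.OVW.ORD

namespace Pool.Agent.OVW

theorem t_ORD : StmtORD := by
  intro 𝔐 hS hB _ h0 h1 hadd hmul
  refine ORD.core 𝔐.M 𝔐.lt ?_ ?_ ?_ ?_ ?_
  · intro a
    rw [h0, h1, hadd]
    exact hB.succ_ne a
  · intro a
    rw [h0, h1]
    obtain ⟨b, hb | hb⟩ := ORD.cases_zero hB hS a
    · exact Or.inl hb
    · exact Or.inr ⟨b, by rw [hadd]; exact hb⟩
  · intro a b
    constructor
    · intro h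
      obtain ⟨c, hc⟩ := ORD.exists_of_lt hB hS a b
      refine ⟨c, ?_⟩
      rw [h1, hadd, hadd]
      exact hc h
    · rintro ⟨c, rfl⟩
      rw [h1, hadd, hadd]
      exact ORD.lt_add hB hS a c
  · intro a b c h
    rw [hadd, hadd] at h
    exact ORD.cancel hB hS a b c h
  · intro a b
    refine ORD.tri hB hS ?_ ?_ b a
    · intro c
      rw [← hadd, ← h0, zero_add]
    · intro a c
      rw [← hadd, ← hadd, ← hadd, ← hadd, ← h1]
      ring

end Pool.Agent.OVW
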