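import Pool.Agent.OVW.A3Defs

/-!
# TR: bounded predicates are given by bounded formulas
-/

namespace Pool.Agent.OVW

namespace TR

variable {M : Type} [Arith M]

/-- Concatenation of two lists of parameters. -/
def cat (n : ℕ) (c d : ℕ → M) : ℕ → M := fun i => if i < n then c i else d (i - n)

theorem cat_lt {n : ℕ} {c d : ℕ → M} {i : ℕ} (h : i < n) : cat n c d i = c i := if_pos h

theorem cat_ge {n : ℕ} {c d : ℕ → M} (i : ℕ) : cat n c d (n + i) = d i := by
  have h : ¬ n + i < n := by omega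
  have h' : n + i - n = i := by omega
  change (if n + i < n then c (n + i) else d (n + i - n)) = d i
  rw [if_neg h, h']

/-- The translation of terms. -/
theorem term (S : Set (Set M)) (t : Tm M) : ∃ (k n : ℕ) (c : ℕ → M), ∀ σ τ : ℕ → ℕ,
    ∃ T : Term, (∀ j, T.Occurs j → (∃ i < k, j = σ i) ∨ ∃ i < n, j = τ i) ∧
      ∀ v w : ℕ → M, (∀ i < k, w (σ i) = v i) → (∀ i < n, w (τ i) = c i) →
        T.eval (toModel M S) w = t.ev v := by
  induction t with
  | var i =>
    refine ⟨i + 1, 0, fun _ => 0, fun σ τ => ⟨.var (σ i), ?_, ?_⟩⟩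
    · intro j hj
      exact Or.inl ⟨i, Nat.lt_succ_self i, hj⟩
    · intro v w h _
      exact h i (Nat.lt_succ_self i)
  | cst a =>
    refine ⟨0, 1, fun _ => a, fun σ τ => ⟨.var (τ 0), ?_, ?_⟩⟩
    · intro j hj
      exact Or.inr ⟨0, Nat.one_pos, hj⟩
    · intro v w _ h
      exact h 0 Nat.one_pos
  | add s t hs ht =>
    obtain ⟨k, n, c, hs⟩ := hs
    obtain ⟨k', n', c', ht⟩ := ht
    refine ⟨max k k', n + n', cat n c c', fun σ τ => ?_⟩
    obtain ⟨T, hT, hT'⟩ := hs σ τ
    obtain ⟨U, hU, hU'⟩ := ht σ (fun i => τ (n + i))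
    refine ⟨.add T U, ?_, ?_⟩
    · rintro j (hj | hj)
      · rcases hT j hj with ⟨i, hi, e⟩ | ⟨i, hi, e⟩
        · exact Or.inl ⟨i, by omega, e⟩
        · exact Or.inr ⟨i, by omega, e⟩
      · rcases hU j hj with ⟨i, hi, e⟩ | ⟨i, hi, e⟩
        · exact Or.inl ⟨i, by omega, e⟩
        · exact Or.inr ⟨n + i, by omega, e⟩
    · intro v w h1 h2
      have e1 := hT' v w (fun i hi => h1 i (by omega))
        (fun i hi => (h2 i (by omega)).trans (cat_lt hi))
      have e2 := hU' v w (fun i hi => h1 i (by omega))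
        (fun i hi => (h2 (n + i) (by omega)).trans (cat_ge i))
      exact congrArg₂ (fun a b : M => a + b) e1 e2
  | mul s t hs ht =>
    obtain ⟨k, n, c, hs⟩ := hs
    obtain ⟨k', n', c', ht⟩ := ht
    refine ⟨max k k', n + n', cat n c c', fun σ τ => ?_⟩
    obtain ⟨T, hT, hT'⟩ := hs σ τ
    obtain ⟨U, hU, hU'⟩ := ht σ (fun i => τ (n + i))
    refine ⟨.mul T U, ?_, ?_⟩
    · rintro j (hj | hj)
      · rcases hT j hj with ⟨i, hi, e⟩ | ⟨i, hi, e⟩
        · exact Or.inl ⟨i, by omega, e⟩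
        · exact Or.inr ⟨i, by omega, e⟩
      · rcases hU j hj with ⟨i, hi, e⟩ | ⟨i, hi, e⟩
        · exact Or.inl ⟨i, by omega, e⟩
        · exact Or.inr ⟨n + i, by omega, e⟩
    · intro v w h1 h2
      have e1 := hT' v w (fun i hi => h1 i (by omega))
        (fun i hi => (h2 i (by omega)).trans (cat_lt hi))
      have e2 := hU' v w (fun i hi => h1 i (by omega))
        (fun i hi => (h2 (n + i) (by omega)).trans (cat_ge i))
      exact congrArg₂ (fun a b : M => a * b) e1 e2

/-- A number which does not occur in two finite lists. -/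
theorem exists_new (σ τ : ℕ → ℕ) (k n : ℕ) :
    ∃ j, (∀ i < k, j ≠ σ i) ∧ ∀ i < n, j ≠ τ i := by
  obtain ⟨j, hj⟩ := Infinite.exists_notMem_finset
    ((Finset.range k).image σ ∪ (Finset.range n).image τ)
  refine ⟨j, fun i hi e => hj ?_, fun i hi e => hj ?_⟩
  · exact Finset.mem_union_left _ (Finset.mem_image.2 ⟨i, Finset.mem_range.2 hi, e.symm⟩)
  · exact Finset.mem_union_right _ (Finset.mem_image.2 ⟨i, Finset.mem_range.2 hi, e.symm⟩)

/-- The variables of the assignment `push x v`. -/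
def cons (j : ℕ) (σ : ℕ → ℕ) : ℕ → ℕ
  | 0 => j
  | i + 1 => σ i

end TR

open TR in
theorem t_TR : StmtTR := by
  intro M _ S A P hP
  induction hP with
  | eq s t =>
    obtain ⟨k, n, c, hs⟩ := term S s
    obtain ⟨k', n', c', ht⟩ := term S t
    refine ⟨max k k', n + n', cat n c c', fun σ τ => ?_⟩
    obtain ⟨T, -, hT⟩ := hs σ τ
    obtain ⟨U, -, hU⟩ := ht σ (fun i => τ (n + i))
    refine ⟨.eq T U, .eq T U, fun v w V _ h1 h2 => ?_⟩
    have e1 := hT v w (fun i hi => h1 i (by omega))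
      (fun i hi => (h2 i (by omega)).trans (cat_lt hi))
    have e2 := hU v w (fun i hi => h1 i (by omega))
      (fun i hi => (h2 (n + i) (by omega)).trans (cat_ge i))
    exact iff_of_eq (congrArg₂ (fun a b : M => a = b) e1 e2)
  | lt s t =>
    obtain ⟨k, n, c, hs⟩ := term S s
    obtain ⟨k', n', c', ht⟩ := term S t
    refine ⟨max k k', n + n', cat n c c', fun σ τ => ?_⟩
    obtain ⟨T, -, hT⟩ := hs σ τ
    obtain ⟨U, -, hU⟩ := ht σ (fun i => τ (n + i))
    refine ⟨.lt T U, .lt T U, fun v w V _ h1 h2 => ?_⟩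
    have e1 := hT v w (fun i hi => h1 i (by omega))
      (fun i hi => (h2 i (by omega)).trans (cat_lt hi))
    have e2 := hU v w (fun i hi => h1 i (by omega))
      (fun i hi => (h2 (n + i) (by omega)).trans (cat_ge i))
    exact iff_of_eq (congrArg₂ (fun a b : M => a < b) e1 e2)
  | mem t =>
    obtain ⟨k, n, c, ht⟩ := term S t
    refine ⟨k, n, c, fun σ τ => ?_⟩
    obtain ⟨T, -, hT⟩ := ht σ τ
    refine ⟨.mem T 0, .mem T 0, fun v w V hV h1 h2 => ?_⟩
    have e1 := hT v w h1 h2
    exact iff_of_eq (congrArg₂ (fun (a : M) (B : Set M) => a ∈ B) e1 hV)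
  | @not P _ ih =>
    obtain ⟨k, n, c, ih⟩ := ih
    refine ⟨k, n, c, fun σ τ => ?_⟩
    obtain ⟨φ, hφ, h⟩ := ih σ τ
    refine ⟨.neg φ, .neg hφ, fun v w V hV h1 h2 => ?_⟩
    exact not_congr (h v w V hV h1 h2)
  | @and P Q _ _ ih ih' =>
    obtain ⟨k, n, c, ih⟩ := ih
    obtain ⟨k', n', c', ih'⟩ := ih'
    refine ⟨max k k', n + n', cat n c c', fun σ τ => ?_⟩
    obtain ⟨φ, hφ, h⟩ := ih σ τ
    obtain ⟨ψ, hψ, h'⟩ := ih' σ (fun i => τ (n + i))
    refine ⟨.and φ ψ, .and hφ hψ, fun v w V hV h1 h2 => ?_⟩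
    exact and_congr
      (h v w V hV (fun i hi => h1 i (by omega))
        (fun i hi => (h2 i (by omega)).trans (cat_lt hi)))
      (h' v w V hV (fun i hi => h1 i (by omega))
        (fun i hi => (h2 (n + i) (by omega)).trans (cat_ge i)))
  | @ball t P _ ih =>
    obtain ⟨k, n, c, ht⟩ := term S t
    obtain ⟨k', n', c', ih⟩ := ih
    refine ⟨max k k', n + n', cat n c c', fun σ τ => ?_⟩
    obtain ⟨j, hj1, hj2⟩ := exists_new σ τ (max k k') (n + n')
    obtain ⟨T, hT, hT'⟩ := ht σ τ
    obtain ⟨φ, hφ, h⟩ := ih (cons j σ) (fun i => τ (n + i))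
    have hocc : ¬ T.Occurs j := by
      intro ho
      rcases hT j ho with ⟨i, hi, e⟩ | ⟨i, hi, e⟩
      · exact hj1 i (by omega) e
      · exact hj2 i (by omega) e
    refine ⟨.all j (.imp (.lt (.var j) T) φ), .all hocc hφ, fun v w V hV h1 h2 => ?_⟩
    change (∀ a : M, ((Function.update w j a j : M) < T.eval (toModel M S) (Function.update w j a))
      → φ.Sat (toModel M S) (Function.update w j a) V) ↔ ∀ x, x < t.ev v → P (push x v)
    have h1' : ∀ (a : M), ∀ i < max k k', Function.update w j a (σ i) = v i := fun a i hi => by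
      rw [Function.update_of_ne (hj1 i hi).symm]
      exact h1 i hi
    have h2' : ∀ (a : M), ∀ i < n + n', Function.update w j a (τ i) = cat n c c' i :=
      fun a i hi => by
        rw [Function.update_of_ne (hj2 i hi).symm]
        exact h2 i hi
    refine forall_congr' fun a => ?_
    have e1 := hT' v (Function.update w j a) (fun i hi => h1' a i (by omega))
      (fun i hi => (h2' a i (by omega)).trans (cat_lt hi))
    have e2 := h (push a v) (Function.update w j a) V hV (fun i hi => by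
        cases i with
        | zero => exact Function.update_self j a w
        | succ i => exact h1' a i (by omega))
      (fun i hi => (h2' a (n + i) (by omega)).trans (cat_ge i))
    exact imp_congr (iff_of_eq (congrArg₂ (fun a b : M => a < b)
      (Function.update_self j a w) e1)) e2

end Pool.Agent.OVW
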