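import Pool.Agent.OVW.A.Sem
import Pool.Agent.OVW.A.ALG
import Pool.Agent.OVW.A.ORD
import Pool.Agent.OVW.A.KF
import Pool.Agent.OVW.A.C1
import Pool.Agent.OVW.A.TR
import Pool.Agent.OVW.A.JN

/-!
# Block A3: the structures are of the form `toModel M S`
-/

namespace Pool.Agent.OVW

theorem t_AR : StmtAR := by
  intro 𝔐 hne h
  have hB : Basic 𝔐 := t_BA 𝔐 hne h
  obtain ⟨cs, h0, h1, ha, hm⟩ := t_ALG 𝔐 hne hB
  obtain ⟨lo, hs, hc, hd, hl⟩ := t_ORD 𝔐 hne hB cs h0 h1 ha hm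
  obtain ⟨K, fK, oK, sK, f, hf, hfr⟩ := t_KF 𝔐.M
  let A : Arith 𝔐.M :=
    { cs, lo, hs, hc with
      lt_one := hd
      K := K
      fieldK := fK
      orderK := oK
      strictK := sK
      toK := f
      toK_strictMono := hf
      frac := hfr }
  refine ⟨𝔐.M, A, 𝔐.S, ?_⟩
  obtain ⟨N, z, o, ad, mu, lt, S⟩ := 𝔐
  simp only [toModel]
  congr 1
  · exact h0.symm
  · exact h1.symm
  · funext a b
    exact (ha a b).symm
  · funext a b
    exact (hm a b).symm
  · funext a b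
    exact propext (hl a b).symm

theorem t_C1' : StmtC1 := t_C1 t_TR t_JN fun M _ S φ i v V =>
  ⟨Form.sat_subst_zero (toModel M S) φ i v V, Form.sat_subst_succ (toModel M S) φ i v V⟩

end Pool.Agent.OVW
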