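import Pool.Agent.OVW.A.M
import Pool.Agent.OVW.StmtsH

/-!
# Block A3, module JC: a function whose jump is under control gives a set with `Σ₂` induction
-/

namespace Pool.Agent.OVW

namespace JC

variable {M : Type} [Arith M]

/-- The join of a set and of the graph of a function. -/
def Jn (X : Set M) (G : M → M) : Set M :=
  {z | (∃ a, z = pr 0 a ∧ a ∈ X) ∨ ∃ a, z = pr 1 (pr a (G a))}

theorem pr_zero_mem {X : Set M} {G : M → M} {a : M} : pr 0 a ∈ Jn X G ↔ a ∈ X := by
  constructor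
  · rintro (⟨b, hb, hX⟩ | ⟨b, hb⟩)
    · rw [(pr_inj hb).2]
      exact hX
    · exact absurd (pr_inj hb).1 zero_ne_one
  · exact fun h => Or.inl ⟨a, rfl, h⟩

theorem pr_one_mem {X : Set M} {G : M → M} {a b : M} : pr 1 (pr a b) ∈ Jn X G ↔ b = G a := by
  constructor
  · rintro (⟨c, hc, -⟩ | ⟨c, hc⟩)
    · exact absurd (pr_inj hc).1 one_ne_zero
    · obtain ⟨h1, h2⟩ := pr_inj (pr_inj hc).2
      rw [h2, h1]
  · rintro rfl
    exact Or.inr ⟨a, rfl⟩

theorem mem_iff {X : Set M} {G : M → M} {z : M} : z ∈ Jn X G ↔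
    (z = pr 0 (sn z) ∧ sn z ∈ X) ∨ z = pr 1 (pr (fs (sn z)) (G (fs (sn z)))) := by
  constructor
  · rintro (⟨a, rfl, ha⟩ | ⟨a, rfl⟩)
    · left
      rw [sn_pr]
      exact ⟨rfl, ha⟩
    · right
      rw [sn_pr, fs_pr]
  · rintro (⟨h1, h2⟩ | h)
    · exact Or.inl ⟨_, h1, h2⟩
    · exact Or.inr ⟨_, h⟩

theorem jn_mem {X : Set M} {G : M → M} {R : Set (M → M)} [IsWorld R] (hX : X ∈ SetsOf R)
    (hG : G ∈ R) : Jn X G ∈ SetsOf R := by
  apply mem_setsOf_of_rec
  have hX' : Rec R (fun a : M => a ∈ X) := a3_rec_mem hX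
  have hG' : Rec R G := hG
  have h1 : Rec R (fun z : M => sn z ∈ X) := Rec.comp (g := fun a => a ∈ X) hX' (by fun_prop)
  have h2 : Rec R (fun z : M => G (fs (sn z))) := Rec.comp (g := G) hG' (by fun_prop)
  have h3 : Rec R (fun z : M => (z = pr 0 (sn z) ∧ sn z ∈ X) ∨
      z = pr 1 (pr (fs (sn z)) (G (fs (sn z))))) := by
    apply Rec.or
    · exact Rec.and (by fun_prop) h1
    · exact Rec.eq Rec.id (Rec.pr (Rec.const 1) (Rec.pr (by fun_prop) h2))
  have e : (fun z : M => z ∈ Jn X G) = fun z : M => (z = pr 0 (sn z) ∧ sn z ∈ X) ∨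
      z = pr 1 (pr (fs (sn z)) (G (fs (sn z)))) := by
    funext z
    exact propext mem_iff
  rw [e]
  exact h3

theorem ind1_of_world {X : Set M} {R : Set (M → M)} [IsWorld R] (hX : X ∈ SetsOf R) : Ind1 X := by
  intro Q hQ v h0 hs
  have h1 : RF R Q := rf_D0 hX hQ
  have h2 : Rec R (fun z : M => Q (push (sn z) (push (fs z) v))) := by
    have h3 := RF.rec (α := M) h1 (F := fun i z => push (sn z) (push (fs z) v) i) (fun i => by
      match i with
      | 0 => exact Rec.sn Rec.id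
      | 1 => exact Rec.fs Rec.id
      | i + 2 => exact Rec.const (v i))
    exact h3
  have h3 : Rec R (fun z : M => (enc (¬ Q (push (sn z) (push (fs z) v))) : M)) :=
    Rec.enc (Rec.not h2)
  have h4 := IsWorld.ind _ h3
  simp only [dec_self, enc_self, fs_pr, sn_pr, enc_eq_zero, not_not] at h4
  exact h4 h0 hs

theorem gen_mono {X Y : Set M} (h : Gen Y (chi X)) {f : M → M} (hf : Gen X f) : Gen Y f := by
  induction hf with
  | const c => exact Gen.const c
  | id => exact Gen.id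
  | fs => exact Gen.fs
  | sn => exact Gen.sn
  | add => exact Gen.add
  | mul => exact Gen.mul
  | lt => exact Gen.lt
  | chi => exact h
  | comp _ _ ih1 ih2 => exact Gen.comp ih1 ih2
  | pair _ _ ih1 ih2 => exact Gen.pair ih1 ih2
  | mu _ h2 ih => exact Gen.mu ih h2

theorem chi_gen (X : Set M) : Gen X (chi X) := Gen.chi

theorem sub_jn (X : Set M) (G : M → M) : GenS X ⊆ GenS (Jn X G) := by
  intro f hf
  refine gen_mono ?_ hf
  have h1 : Gen (Jn X G) (fun a => chi (Jn X G) (pr 0 a)) :=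
    Gen.comp (chi_gen (Jn X G)) (Gen.pair (Gen.const 0) Gen.id)
  have e : chi X = fun a => chi (Jn X G) (pr 0 a) := by
    funext a
    unfold chi
    by_cases ha : a ∈ X
    · rw [if_pos ha, if_pos (pr_zero_mem.2 ha)]
    · rw [if_neg ha, if_neg (fun h => ha (pr_zero_mem.1 h))]
  rw [e]
  exact h1

theorem graph_mem {X : Set M} {G : M → M} [IsWorld (GenS (Jn X G))] : G ∈ GenS (Jn X G) := by
  have h1 : Rec (GenS (Jn X G)) (fun z : M => z ∈ Jn X G) := a3_rec_mem (chi_gen (Jn X G))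
  have h2 : Rec (GenS (Jn X G)) (fun z : M × M => pr 1 (pr z.1 z.2) ∈ Jn X G) :=
    Rec.comp (g := fun z : M => z ∈ Jn X G) h1 (by fun_prop)
  obtain ⟨f, hf, hf'⟩ := Rec.choice (P := fun a b => pr 1 (pr a b) ∈ Jn X G) h2
    (fun a => ⟨G a, pr_one_mem.2 rfl⟩)
  have e : f = G := funext fun a => pr_one_mem.1 (hf' a)
  rw [e] at hf
  exact hf

end JC

open Classical in
theorem t_JC (hW : StmtW) (hEXT : StmtEXT) (hSIG : StmtSIG) : StmtJC := by
  intro M _ X hI R₂ hR₂ hsub h hh p hp hctl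
  have hRw : IsWorld (GenS X) := hW M X hI
  have hG : prf h p ∈ R₂ := IsWorld.pair h hh p hp
  have hseg : Segd (prf h p) := fun n => by
    obtain ⟨c, hc⟩ := IsWorld.beta (R := R₂) (prf h p) hG n
    exact ⟨c, hc⟩
  have hbca : BCA (GenS X) (prf h p) := by
    intro φ hφ b
    obtain ⟨c, hc⟩ := IsWorld.beta (R := R₂) _ (hctl φ hφ) b
    exact ⟨c, hc⟩
  obtain ⟨w', s', g'⟩ := hEXT M (GenS X) (prf h p) hseg hbca
  have hX' : JC.Jn X (prf h p) ∈ SetsOf (RIn (GenS X) (prf h p)) :=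
    JC.jn_mem (s' (JC.chi_gen X)) g'
  have hI' : Ind1 (JC.Jn X (prf h p)) := JC.ind1_of_world hX'
  have hWo : IsWorld (GenS (JC.Jn X (prf h p))) := hW M _ hI'
  have hG' : prf h p ∈ GenS (JC.Jn X (prf h p)) := JC.graph_mem
  refine ⟨JC.Jn X (prf h p), hI', ?_, JC.sub_jn X _, ?_, ?_⟩
  · intro Q hQ v h0 hs
    have h1 : RF (RIn (GenS X) (prf h p)) Q := rf_D0 hX' hQ
    have h2 : Rec (RIn (GenS X) (prf h p))
        (fun z : M => Q (push (sn z) (push (sn (fs z)) (push (fs (fs z)) v)))) := by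
      have h3 := RF.rec (α := M) h1
        (F := fun i z => push (sn z) (push (sn (fs z)) (push (fs (fs z)) v)) i) (fun i => by
        match i with
        | 0 => exact Rec.sn Rec.id
        | 1 => exact Rec.sn (Rec.fs Rec.id)
        | 2 => exact Rec.fs (Rec.fs Rec.id)
        | i + 3 => exact Rec.const (v i))
      exact h3
    have h3 : (fun z : M => (enc (Q (push (sn z) (push (sn (fs z)) (push (fs (fs z)) v)))) : M)) ∈
        RIn (GenS X) (prf h p) := Rec.enc h2
    obtain ⟨φ, hφ, hφ'⟩ := hSIG M (GenS X) (prf h p) hseg hbca _ h3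
    simp only [fs_pr, sn_pr, enc_eq_zero] at hφ'
    have key : ∀ x y : M, (∀ z, Q (push z (push y (push x v)))) ↔
        (if ∃ n, φ (pr (pr x y) (seg (prf h p) n)) ≠ 0 then (1 : M) else 0) = 0 := by
      intro x y
      have h5 := hφ' (pr x y)
      simp only [fs_pr, sn_pr] at h5
      by_cases hc : ∃ n, φ (pr (pr x y) (seg (prf h p) n)) ≠ 0
      · rw [if_pos hc]
        obtain ⟨n, hn⟩ := h5.2 hc
        exact ⟨fun hq => absurd (hq n) hn, fun h1 => absurd h1 one_ne_zero⟩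
      · rw [if_neg hc]
        refine ⟨fun _ => rfl, fun _ z => ?_⟩
        by_contra hz
        exact hc (h5.1 ⟨z, hz⟩)
    simp only [key] at h0 hs ⊢
    exact IsWorld.ind _ (hctl φ hφ) h0 hs
  · have h1 := Gen.comp Gen.fs hG'
    have e : (fun x => fs (prf h p x)) = h := funext fun x => fs_pr _ _
    rw [e] at h1
    exact h1
  · have h1 := Gen.comp Gen.sn hG'
    have e : (fun x => sn (prf h p x)) = p := funext fun x => sn_pr _ _
    rw [e] at h1
    exact h1

end Pool.Agent.OVW
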