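import Pool.Agent.OVW.A3Defs

/-!
# LS: the downward Löwenheim-Skolem theorem
-/

namespace Pool.Agent.OVW

namespace LS

/-! ### There are countably many formulas -/

/-- Codes of terms. -/
def encT : Term → ℕ
  | .var i => Nat.pair 0 i
  | .zero => Nat.pair 1 0
  | .one => Nat.pair 2 0
  | .add s t => Nat.pair 3 (Nat.pair (encT s) (encT t))
  | .mul s t => Nat.pair 4 (Nat.pair (encT s) (encT t))

theorem encT_inj : ∀ s t : Term, encT s = encT t → s = t := by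
  intro s
  induction s with
  | var i => intro t h; cases t <;> simp [encT, Nat.pair_eq_pair] at h ⊢; exact h
  | zero => intro t h; cases t <;> simp [encT, Nat.pair_eq_pair] at h ⊢
  | one => intro t h; cases t <;> simp [encT, Nat.pair_eq_pair] at h ⊢
  | add a b iha ihb =>
    intro t h
    cases t <;> simp [encT, Nat.pair_eq_pair] at h ⊢
    exact ⟨iha _ h.1, ihb _ h.2⟩
  | mul a b iha ihb =>
    intro t h
    cases t <;> simp [encT, Nat.pair_eq_pair] at h ⊢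
    exact ⟨iha _ h.1, ihb _ h.2⟩

/-- Codes of formulas. -/
def encF : Form → ℕ
  | .eq s t => Nat.pair 0 (Nat.pair (encT s) (encT t))
  | .lt s t => Nat.pair 1 (Nat.pair (encT s) (encT t))
  | .mem s X => Nat.pair 2 (Nat.pair (encT s) X)
  | .neg φ => Nat.pair 3 (encF φ)
  | .and φ ψ => Nat.pair 4 (Nat.pair (encF φ) (encF ψ))
  | .or φ ψ => Nat.pair 5 (Nat.pair (encF φ) (encF ψ))
  | .imp φ ψ => Nat.pair 6 (Nat.pair (encF φ) (encF ψ))
  | .all i φ => Nat.pair 7 (Nat.pair i (encF φ))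
  | .ex i φ => Nat.pair 8 (Nat.pair i (encF φ))
  | .allSet i φ => Nat.pair 9 (Nat.pair i (encF φ))
  | .exSet i φ => Nat.pair 10 (Nat.pair i (encF φ))

theorem encF_inj : ∀ φ ψ : Form, encF φ = encF ψ → φ = ψ := by
  intro φ
  induction φ with
  | eq s t =>
    intro ψ h
    cases ψ <;> simp [encF, Nat.pair_eq_pair] at h ⊢
    exact ⟨encT_inj _ _ h.1, encT_inj _ _ h.2⟩
  | lt s t =>
    intro ψ h
    cases ψ <;> simp [encF, Nat.pair_eq_pair] at h ⊢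
    exact ⟨encT_inj _ _ h.1, encT_inj _ _ h.2⟩
  | mem s X =>
    intro ψ h
    cases ψ <;> simp [encF, Nat.pair_eq_pair] at h ⊢
    exact ⟨encT_inj _ _ h.1, h.2⟩
  | neg φ ih =>
    intro ψ h
    cases ψ <;> simp [encF, Nat.pair_eq_pair] at h ⊢
    exact ih _ h
  | and a b iha ihb =>
    intro ψ h
    cases ψ <;> simp [encF, Nat.pair_eq_pair] at h ⊢
    exact ⟨iha _ h.1, ihb _ h.2⟩
  | or a b iha ihb =>
    intro ψ h
    cases ψ <;> simp [encF, Nat.pair_eq_pair] at h ⊢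
    exact ⟨iha _ h.1, ihb _ h.2⟩
  | imp a b iha ihb =>
    intro ψ h
    cases ψ <;> simp [encF, Nat.pair_eq_pair] at h ⊢
    exact ⟨iha _ h.1, ihb _ h.2⟩
  | all i φ ih =>
    intro ψ h
    cases ψ <;> simp [encF, Nat.pair_eq_pair] at h ⊢
    exact ⟨h.1, ih _ h.2⟩
  | ex i φ ih =>
    intro ψ h
    cases ψ <;> simp [encF, Nat.pair_eq_pair] at h ⊢
    exact ⟨h.1, ih _ h.2⟩
  | allSet i φ ih =>
    intro ψ h
    cases ψ <;> simp [encF, Nat.pair_eq_pair] at h ⊢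
    exact ⟨h.1, ih _ h.2⟩
  | exSet i φ ih =>
    intro ψ h
    cases ψ <;> simp [encF, Nat.pair_eq_pair] at h ⊢
    exact ⟨h.1, ih _ h.2⟩

instance : Countable Form := ⟨⟨encF, fun _ _ h => encF_inj _ _ h⟩⟩

/-! ### Coincidence -/

theorem coinT (𝔐 : Model) (t : Term) : ∃ k : ℕ, ∀ v v' : ℕ → 𝔐.M, (∀ i < k, v i = v' i) →
    t.eval 𝔐 v = t.eval 𝔐 v' := by
  induction t with
  | var i => exact ⟨i + 1, fun v v' h => h i (Nat.lt_succ_self i)⟩
  | zero => exact ⟨0, fun _ _ _ => rfl⟩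
  | one => exact ⟨0, fun _ _ _ => rfl⟩
  | add a b iha ihb =>
    obtain ⟨k, hk⟩ := iha
    obtain ⟨l, hl⟩ := ihb
    refine ⟨max k l, fun v v' h => ?_⟩
    change 𝔐.add _ _ = 𝔐.add _ _
    rw [hk v v' fun i hi => h i (lt_of_lt_of_le hi (le_max_left _ _)),
      hl v v' fun i hi => h i (lt_of_lt_of_le hi (le_max_right _ _))]
  | mul a b iha ihb =>
    obtain ⟨k, hk⟩ := iha
    obtain ⟨l, hl⟩ := ihb
    refine ⟨max k l, fun v v' h => ?_⟩
    change 𝔐.mul _ _ = 𝔐.mul _ _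
    rw [hk v v' fun i hi => h i (lt_of_lt_of_le hi (le_max_left _ _)),
      hl v v' fun i hi => h i (lt_of_lt_of_le hi (le_max_right _ _))]

/-- The values at the variables with the numbers below `k` are the same. -/
def Ag {A : Type} (k : ℕ) (v v' : ℕ → A) : Prop := ∀ i < k, v i = v' i

theorem Ag.mono {A : Type} {k l : ℕ} {v v' : ℕ → A} (h : Ag k v v') (hl : l ≤ k) : Ag l v v' :=
  fun i hi => h i (lt_of_lt_of_le hi hl)

theorem Ag.upd {A : Type} {k : ℕ} {v v' : ℕ → A} (h : Ag k v v') (i : ℕ) (a : A) :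
    Ag k (Function.update v i a) (Function.update v' i a) := by
  intro j hj
  by_cases hji : j = i
  · subst hji
    simp
  · rw [Function.update_of_ne hji, Function.update_of_ne hji]
    exact h j hj

theorem coin (𝔐 : Model) (φ : Form) : ∃ k : ℕ, ∀ (v v' : ℕ → 𝔐.M) (V V' : ℕ → Set 𝔐.M),
    Ag k v v' → Ag k V V' → (φ.Sat 𝔐 v V ↔ φ.Sat 𝔐 v' V') := by
  induction φ with
  | eq s t =>
    obtain ⟨k, hk⟩ := coinT 𝔐 s
    obtain ⟨l, hl⟩ := coinT 𝔐 t
    refine ⟨max k l, fun v v' V V' h _ => ?_⟩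
    change _ = _ ↔ _ = _
    rw [hk v v' (h.mono (le_max_left _ _)), hl v v' (h.mono (le_max_right _ _))]
  | lt s t =>
    obtain ⟨k, hk⟩ := coinT 𝔐 s
    obtain ⟨l, hl⟩ := coinT 𝔐 t
    refine ⟨max k l, fun v v' V V' h _ => ?_⟩
    change 𝔐.lt _ _ ↔ 𝔐.lt _ _
    rw [hk v v' (h.mono (le_max_left _ _)), hl v v' (h.mono (le_max_right _ _))]
  | mem s X =>
    obtain ⟨k, hk⟩ := coinT 𝔐 s
    refine ⟨max k (X + 1), fun v v' V V' h h' => ?_⟩
    change _ ∈ _ ↔ _ ∈ _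
    rw [hk v v' (h.mono (le_max_left _ _)),
      h' X (lt_of_lt_of_le (Nat.lt_succ_self X) (le_max_right _ _))]
  | neg φ ih =>
    obtain ⟨k, hk⟩ := ih
    exact ⟨k, fun v v' V V' h h' => not_congr (hk v v' V V' h h')⟩
  | and a b iha ihb =>
    obtain ⟨k, hk⟩ := iha
    obtain ⟨l, hl⟩ := ihb
    exact ⟨max k l, fun v v' V V' h h' => and_congr
      (hk v v' V V' (h.mono (le_max_left _ _)) (h'.mono (le_max_left _ _)))
      (hl v v' V V' (h.mono (le_max_right _ _)) (h'.mono (le_max_right _ _)))⟩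
  | or a b iha ihb =>
    obtain ⟨k, hk⟩ := iha
    obtain ⟨l, hl⟩ := ihb
    exact ⟨max k l, fun v v' V V' h h' => or_congr
      (hk v v' V V' (h.mono (le_max_left _ _)) (h'.mono (le_max_left _ _)))
      (hl v v' V V' (h.mono (le_max_right _ _)) (h'.mono (le_max_right _ _)))⟩
  | imp a b iha ihb =>
    obtain ⟨k, hk⟩ := iha
    obtain ⟨l, hl⟩ := ihb
    exact ⟨max k l, fun v v' V V' h h' => imp_congr
      (hk v v' V V' (h.mono (le_max_left _ _)) (h'.mono (le_max_left _ _)))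
      (hl v v' V V' (h.mono (le_max_right _ _)) (h'.mono (le_max_right _ _)))⟩
  | all i φ ih =>
    obtain ⟨k, hk⟩ := ih
    exact ⟨k, fun v v' V V' h h' => forall_congr' fun a => hk _ _ V V' (h.upd i a) h'⟩
  | ex i φ ih =>
    obtain ⟨k, hk⟩ := ih
    exact ⟨k, fun v v' V V' h h' => exists_congr fun a => hk _ _ V V' (h.upd i a) h'⟩
  | allSet i φ ih =>
    obtain ⟨k, hk⟩ := ih
    exact ⟨k, fun v v' V V' h h' => forall_congr' fun A => imp_congr Iff.rfl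
      (hk v v' _ _ h (h'.upd i A))⟩
  | exSet i φ ih =>
    obtain ⟨k, hk⟩ := ih
    exact ⟨k, fun v v' V V' h h' => exists_congr fun A => and_congr Iff.rfl
      (hk v v' _ _ h (h'.upd i A))⟩

/-! ### Closure -/

theorem lists_countable {A : Type} {P : Set A} (h : P.Countable) :
    {l : List A | ∀ x ∈ l, x ∈ P}.Countable := by
  have : Countable P := h.to_subtype
  rw [← Set.range_list_map_coe]
  exact Set.countable_range _

theorem stage {A : Type} {C : ℕ → Set A} (hC : Monotone C) (l : List A)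
    (h : ∀ x ∈ l, x ∈ ⋃ n, C n) : ∃ n, ∀ x ∈ l, x ∈ C n := by
  induction l with
  | nil => exact ⟨0, fun x hx => by simp at hx⟩
  | cons a l ih =>
    obtain ⟨n, hn⟩ := ih fun x hx => h x (List.mem_cons_of_mem _ hx)
    obtain ⟨m, hm⟩ := Set.mem_iUnion.1 (h a List.mem_cons_self)
    refine ⟨max n m, fun x hx => ?_⟩
    rcases List.mem_cons.1 hx with rfl | hx
    · exact hC (le_max_right _ _) hm
    · exact hC (le_max_left _ _) (hn x hx)

section

variable {M T ι : Type} (f : ι → List M → List T → M) (g : ι → List M → List T → T)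

/-- One step of the closure. -/
def step (P : Set M × Set T) : Set M × Set T :=
  (P.1 ∪ ⋃ i, Set.image2 (f i) {s | ∀ x ∈ s, x ∈ P.1} {t | ∀ x ∈ t, x ∈ P.2},
    P.2 ∪ ⋃ i, Set.image2 (g i) {s | ∀ x ∈ s, x ∈ P.1} {t | ∀ x ∈ t, x ∈ P.2})

/-- The stages of the closure. -/
def St (P : Set M × Set T) : ℕ → Set M × Set T
  | 0 => P
  | n + 1 => step f g (St P n)

theorem St_countable [Countable ι] (P : Set M × Set T) (h1 : P.1.Countable)
    (h2 : P.2.Countable) (n : ℕ) : (St f g P n).1.Countable ∧ (St f g P n).2.Countable := by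
  induction n with
  | zero => exact ⟨h1, h2⟩
  | succ n ih =>
    exact ⟨ih.1.union (Set.countable_iUnion fun i =>
        (lists_countable ih.1).image2 (lists_countable ih.2) _),
      ih.2.union (Set.countable_iUnion fun i =>
        (lists_countable ih.1).image2 (lists_countable ih.2) _)⟩

theorem St_mono1 (P : Set M × Set T) : Monotone fun n => (St f g P n).1 :=
  monotone_nat_of_le_succ fun _ => Set.subset_union_left

theorem St_mono2 (P : Set M × Set T) : Monotone fun n => (St f g P n).2 :=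
  monotone_nat_of_le_succ fun _ => Set.subset_union_left

theorem St_sub (P : Set M × Set T) (S : Set T) (hP : P.2 ⊆ S) (hg : ∀ i s t, g i s t ∈ S)
    (n : ℕ) : (St f g P n).2 ⊆ S := by
  induction n with
  | zero => exact hP
  | succ n ih =>
    refine Set.union_subset ih (Set.iUnion_subset fun i => ?_)
    rintro _ ⟨s, _, t, _, rfl⟩
    exact hg i s t

theorem closure [Countable ι] (A : Set M) (B : Set T) (hA : A.Countable) (hB : B.Countable)
    (S : Set T) (hBS : B ⊆ S) (hg : ∀ i s t, g i s t ∈ S) :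
    ∃ (A' : Set M) (B' : Set T), A ⊆ A' ∧ B ⊆ B' ∧ B' ⊆ S ∧ A'.Countable ∧ B'.Countable ∧
      ∀ i s t, (∀ x ∈ s, x ∈ A') → (∀ x ∈ t, x ∈ B') → f i s t ∈ A' ∧ g i s t ∈ B' := by
  refine ⟨⋃ n, (St f g (A, B) n).1, ⋃ n, (St f g (A, B) n).2,
    Set.subset_iUnion (fun n => (St f g (A, B) n).1) 0,
    Set.subset_iUnion (fun n => (St f g (A, B) n).2) 0,
    Set.iUnion_subset fun n => St_sub f g (A, B) S hBS hg n,
    Set.countable_iUnion fun n => (St_countable f g (A, B) hA hB n).1,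
    Set.countable_iUnion fun n => (St_countable f g (A, B) hA hB n).2, ?_⟩
  intro i s t hs ht
  obtain ⟨n, hn⟩ := stage (St_mono1 f g (A, B)) s hs
  obtain ⟨m, hm⟩ := stage (St_mono2 f g (A, B)) t ht
  have hn' : ∀ x ∈ s, x ∈ (St f g (A, B) (max n m)).1 := fun x hx =>
    St_mono1 f g (A, B) (le_max_left _ _) (hn x hx)
  have hm' : ∀ x ∈ t, x ∈ (St f g (A, B) (max n m)).2 := fun x hx =>
    St_mono2 f g (A, B) (le_max_right _ _) (hm x hx)
  exact ⟨Set.mem_iUnion.2 ⟨max n m + 1, Or.inr (Set.mem_iUnion.2 ⟨i, s, hn', t, hm', rfl⟩)⟩,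
    Set.mem_iUnion.2 ⟨max n m + 1, Or.inr (Set.mem_iUnion.2 ⟨i, s, hn', t, hm', rfl⟩)⟩⟩

end

/-! ### Witness functions -/

section

variable (𝔐 : Model) (D : Set 𝔐.M)

/-- The assignment of a list of numbers. -/
def as1 (s : List 𝔐.M) : ℕ → 𝔐.M := fun j => s.getD j 𝔐.zero

/-- The assignment of a list of sets. -/
def as2 (t : List (Set 𝔐.M)) : ℕ → Set 𝔐.M := fun j => t.getD j D

open Classical in
/-- Witness numbers, sums and products. -/
noncomputable def wit1 : (Form × ℕ) ⊕ Bool → List 𝔐.M → List (Set 𝔐.M) → 𝔐.M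
  | .inl p, s, t =>
    if h : ∃ a, p.1.Sat 𝔐 (Function.update (as1 𝔐 s) p.2 a) (as2 𝔐 D t) then h.choose else 𝔐.zero
  | .inr true, s, _ => 𝔐.add (as1 𝔐 s 0) (as1 𝔐 s 1)
  | .inr false, s, _ => 𝔐.mul (as1 𝔐 s 0) (as1 𝔐 s 1)

open Classical in
/-- Witness sets. -/
noncomputable def wit2 : (Form × ℕ) ⊕ Bool → List 𝔐.M → List (Set 𝔐.M) → Set 𝔐.M
  | .inl p, s, t =>
    if h : ∃ A, A ∈ 𝔐.S ∧ p.1.Sat 𝔐 (as1 𝔐 s) (Function.update (as2 𝔐 D t) p.2 A) then h.choose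
    else D
  | .inr _, _, _ => D

theorem wit2_mem (hD : D ∈ 𝔐.S) (i s t) : wit2 𝔐 D i s t ∈ 𝔐.S := by
  rcases i with p | b
  · by_cases h : ∃ A, A ∈ 𝔐.S ∧ p.1.Sat 𝔐 (as1 𝔐 s) (Function.update (as2 𝔐 D t) p.2 A)
    · have e : wit2 𝔐 D (.inl p) s t = h.choose := dif_pos h
      rw [e]
      exact h.choose_spec.1
    · have e : wit2 𝔐 D (.inl p) s t = D := dif_neg h
      rw [e]
      exact hD
  · exact hD

variable (A' : Set 𝔐.M) (B' : Set (Set 𝔐.M))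

/-- Closure under witnesses. -/
def Cl : Prop := ∀ i s t, (∀ x ∈ s, x ∈ A') → (∀ x ∈ t, x ∈ B') →
  wit1 𝔐 D i s t ∈ A' ∧ wit2 𝔐 D i s t ∈ B'

variable {A' B'}

theorem ag_ofFn {A : Type} (k : ℕ) (v : ℕ → A) (d : A) :
    Ag k v (fun j => (List.ofFn fun i : Fin k => v i).getD j d) := by
  intro i hi
  simp [hi]

theorem exNum (hC : Cl 𝔐 D A' B') (φ : Form) (i : ℕ) (w : ℕ → 𝔐.M) (W : ℕ → Set 𝔐.M)
    (hw : ∀ j, w j ∈ A') (hW : ∀ j, W j ∈ B')
    (h : ∃ a, φ.Sat 𝔐 (Function.update w i a) W) :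
    ∃ a ∈ A', φ.Sat 𝔐 (Function.update w i a) W := by
  obtain ⟨k, hk⟩ := coin 𝔐 φ
  let s := List.ofFn fun i : Fin k => w i
  let t := List.ofFn fun i : Fin k => W i
  have hs : Ag k w (as1 𝔐 s) := ag_ofFn k w 𝔐.zero
  have ht : Ag k W (as2 𝔐 D t) := ag_ofFn k W D
  have hst := hC (.inl (φ, i)) s t (fun x hx => by
    obtain ⟨j, rfl⟩ := List.mem_ofFn.1 hx
    exact hw j) (fun x hx => by
    obtain ⟨j, rfl⟩ := List.mem_ofFn.1 hx
    exact hW j)
  have h' : ∃ a, φ.Sat 𝔐 (Function.update (as1 𝔐 s) i a) (as2 𝔐 D t) := by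
    obtain ⟨a, ha⟩ := h
    exact ⟨a, (hk _ _ _ _ (hs.upd i a) ht).1 ha⟩
  have e : wit1 𝔐 D (.inl (φ, i)) s t = h'.choose := dif_pos h'
  refine ⟨h'.choose, ?_, (hk _ _ _ _ (hs.upd i _) ht).2 h'.choose_spec⟩
  rw [← e]
  exact hst.1

theorem exSet (hC : Cl 𝔐 D A' B') (φ : Form) (i : ℕ) (w : ℕ → 𝔐.M) (W : ℕ → Set 𝔐.M)
    (hw : ∀ j, w j ∈ A') (hW : ∀ j, W j ∈ B')
    (h : ∃ A ∈ 𝔐.S, φ.Sat 𝔐 w (Function.update W i A)) :
    ∃ A ∈ B', φ.Sat 𝔐 w (Function.update W i A) := by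
  obtain ⟨k, hk⟩ := coin 𝔐 φ
  let s := List.ofFn fun i : Fin k => w i
  let t := List.ofFn fun i : Fin k => W i
  have hs : Ag k w (as1 𝔐 s) := ag_ofFn k w 𝔐.zero
  have ht : Ag k W (as2 𝔐 D t) := ag_ofFn k W D
  have hst := hC (.inl (φ, i)) s t (fun x hx => by
    obtain ⟨j, rfl⟩ := List.mem_ofFn.1 hx
    exact hw j) (fun x hx => by
    obtain ⟨j, rfl⟩ := List.mem_ofFn.1 hx
    exact hW j)
  have h' : ∃ A, A ∈ 𝔐.S ∧ φ.Sat 𝔐 (as1 𝔐 s) (Function.update (as2 𝔐 D t) i A) := by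
    obtain ⟨A, hA, hsat⟩ := h
    exact ⟨A, hA, (hk _ _ _ _ hs (ht.upd i A)).1 hsat⟩
  have e : wit2 𝔐 D (.inl (φ, i)) s t = h'.choose := dif_pos h'
  refine ⟨h'.choose, ?_, (hk _ _ _ _ hs (ht.upd i _)).2 h'.choose_spec.2⟩
  rw [← e]
  exact hst.2

/-- The substructure. -/
abbrev sub (A' : Set 𝔐.M) (B' : Set (Set 𝔐.M)) (h0 : 𝔐.zero ∈ A') (h1 : 𝔐.one ∈ A')
    (ha : ∀ a ∈ A', ∀ b ∈ A', 𝔐.add a b ∈ A') (hm : ∀ a ∈ A', ∀ b ∈ A', 𝔐.mul a b ∈ A') :
    Model where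
  M := A'
  zero := ⟨𝔐.zero, h0⟩
  one := ⟨𝔐.one, h1⟩
  add a b := ⟨𝔐.add a.1 b.1, ha _ a.2 _ b.2⟩
  mul a b := ⟨𝔐.mul a.1 b.1, hm _ a.2 _ b.2⟩
  lt a b := 𝔐.lt a.1 b.1
  S := (fun A => (Subtype.val ⁻¹' A : Set A')) '' B'

variable (h0 : 𝔐.zero ∈ A') (h1 : 𝔐.one ∈ A')
    (ha : ∀ a ∈ A', ∀ b ∈ A', 𝔐.add a b ∈ A') (hm : ∀ a ∈ A', ∀ b ∈ A', 𝔐.mul a b ∈ A')

theorem evalT (w : ℕ → A') (t : Term) :
    (t.eval (sub 𝔐 A' B' h0 h1 ha hm) w).1 = t.eval 𝔐 (fun i => (w i).1) := by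
  induction t with
  | var i => rfl
  | zero => rfl
  | one => rfl
  | add a b iha ihb =>
    change 𝔐.add (a.eval (sub 𝔐 A' B' h0 h1 ha hm) w).1 (b.eval (sub 𝔐 A' B' h0 h1 ha hm) w).1 =
      𝔐.add _ _
    rw [iha, ihb]
  | mul a b iha ihb =>
    change 𝔐.mul (a.eval (sub 𝔐 A' B' h0 h1 ha hm) w).1 (b.eval (sub 𝔐 A' B' h0 h1 ha hm) w).1 =
      𝔐.mul _ _
    rw [iha, ihb]

theorem upd1 (w : ℕ → A') (i : ℕ) (a : A') :
    (fun j => (Function.update w i a j).1) = Function.update (fun j => (w j).1) i a.1 := by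
  funext j
  by_cases h : j = i
  · subst h
    simp
  · rw [Function.update_of_ne h, Function.update_of_ne h]

theorem upd2 (W : ℕ → Set 𝔐.M) (i : ℕ) (A : Set 𝔐.M) :
    (fun j => (Subtype.val ⁻¹' (Function.update W i A j) : Set A')) =
      Function.update (fun j => (Subtype.val ⁻¹' (W j) : Set A')) i (Subtype.val ⁻¹' A) := by
  funext j
  by_cases h : j = i
  · subst h
    simp
  · rw [Function.update_of_ne h, Function.update_of_ne h]

theorem upd_mem {A : Type} {P : Set A} {W : ℕ → A} (hW : ∀ j, W j ∈ P) (i : ℕ) {a : A}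
    (ha : a ∈ P) (j : ℕ) : Function.update W i a j ∈ P := by
  by_cases h : j = i
  · subst h
    simpa using ha
  · rw [Function.update_of_ne h]
    exact hW j

theorem main (hB : B' ⊆ 𝔐.S) (hC : Cl 𝔐 D A' B') (φ : Form) (w : ℕ → A') (W : ℕ → Set 𝔐.M)
    (hW : ∀ j, W j ∈ B') :
    φ.Sat (sub 𝔐 A' B' h0 h1 ha hm) w (fun j => (Subtype.val ⁻¹' (W j) : Set A')) ↔
      φ.Sat 𝔐 (fun i => (w i).1) W := by
  induction φ generalizing w W with
  | eq s t =>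
    change s.eval (sub 𝔐 A' B' h0 h1 ha hm) w = t.eval (sub 𝔐 A' B' h0 h1 ha hm) w ↔ _ = _
    rw [← evalT 𝔐 (B' := B') h0 h1 ha hm, ← evalT 𝔐 (B' := B') h0 h1 ha hm]
    exact Subtype.ext_iff
  | lt s t =>
    change 𝔐.lt (s.eval (sub 𝔐 A' B' h0 h1 ha hm) w).1 (t.eval (sub 𝔐 A' B' h0 h1 ha hm) w).1 ↔
      𝔐.lt _ _
    rw [evalT, evalT]
  | mem s X =>
    change (s.eval (sub 𝔐 A' B' h0 h1 ha hm) w).1 ∈ W X ↔ _ ∈ W X
    rw [evalT]
  | neg φ ih => exact not_congr (ih w W hW)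
  | and a b iha ihb => exact and_congr (iha w W hW) (ihb w W hW)
  | or a b iha ihb => exact or_congr (iha w W hW) (ihb w W hW)
  | imp a b iha ihb => exact imp_congr (iha w W hW) (ihb w W hW)
  | all i φ ih =>
    have key : ∀ a : A', φ.Sat (sub 𝔐 A' B' h0 h1 ha hm) (Function.update w i a)
        (fun j => (Subtype.val ⁻¹' (W j) : Set A')) ↔
        φ.Sat 𝔐 (Function.update (fun j => (w j).1) i a.1) W := by
      intro a
      rw [ih _ W hW, upd1]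
    constructor
    · intro h
      by_contra hcon
      have hcon' : ¬ ∀ a, φ.Sat 𝔐 (Function.update (fun j => (w j).1) i a) W := hcon
      obtain ⟨a, hna⟩ := not_forall.1 hcon'
      obtain ⟨b, hb, hnb⟩ := exNum 𝔐 D hC (.neg φ) i (fun j => (w j).1) W (fun j => (w j).2) hW
        ⟨a, hna⟩
      exact hnb ((key ⟨b, hb⟩).1 (h ⟨b, hb⟩))
    · intro h a
      exact (key a).2 (h a.1)
  | ex i φ ih =>
    have key : ∀ a : A', φ.Sat (sub 𝔐 A' B' h0 h1 ha hm) (Function.update w i a)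
        (fun j => (Subtype.val ⁻¹' (W j) : Set A')) ↔
        φ.Sat 𝔐 (Function.update (fun j => (w j).1) i a.1) W := by
      intro a
      rw [ih _ W hW, upd1]
    constructor
    · rintro ⟨a, h⟩
      exact ⟨a.1, (key a).1 h⟩
    · rintro ⟨a, h⟩
      obtain ⟨b, hb, hb'⟩ := exNum 𝔐 D hC φ i (fun j => (w j).1) W (fun j => (w j).2) hW ⟨a, h⟩
      exact ⟨⟨b, hb⟩, (key ⟨b, hb⟩).2 hb'⟩
  | allSet i φ ih =>
    have key : ∀ A ∈ B', (φ.Sat (sub 𝔐 A' B' h0 h1 ha hm) w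
        (Function.update (fun j => (Subtype.val ⁻¹' (W j) : Set A')) i (Subtype.val ⁻¹' A)) ↔
        φ.Sat 𝔐 (fun j => (w j).1) (Function.update W i A)) := by
      intro A hA
      rw [← upd2, ih w _ (upd_mem hW i hA)]
    constructor
    · intro h
      by_contra hcon
      have hcon' : ¬ ∀ A ∈ 𝔐.S, φ.Sat 𝔐 (fun j => (w j).1) (Function.update W i A) := hcon
      push Not at hcon'
      obtain ⟨A, hA, hna⟩ := hcon'
      obtain ⟨C, hCB, hnC⟩ := exSet 𝔐 D hC (.neg φ) i (fun j => (w j).1) W (fun j => (w j).2) hW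
        ⟨A, hA, hna⟩
      exact hnC ((key C hCB).1 (h _ ⟨C, hCB, rfl⟩))
    · rintro h _ ⟨A, hA, rfl⟩
      exact (key A hA).2 (h A (hB hA))
  | exSet i φ ih =>
    have key : ∀ A ∈ B', (φ.Sat (sub 𝔐 A' B' h0 h1 ha hm) w
        (Function.update (fun j => (Subtype.val ⁻¹' (W j) : Set A')) i (Subtype.val ⁻¹' A)) ↔
        φ.Sat 𝔐 (fun j => (w j).1) (Function.update W i A)) := by
      intro A hA
      rw [← upd2, ih w _ (upd_mem hW i hA)]
    constructor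
    · rintro ⟨_, ⟨A, hA, rfl⟩, h⟩
      exact ⟨A, hB hA, (key A hA).1 h⟩
    · rintro ⟨A, hA, h⟩
      obtain ⟨C, hCB, hC'⟩ := exSet 𝔐 D hC φ i (fun j => (w j).1) W (fun j => (w j).2) hW
        ⟨A, hA, h⟩
      exact ⟨_, ⟨C, hCB, rfl⟩, (key C hCB).2 hC'⟩

end

end LS

open LS in
theorem t_LS : StmtLS := by
  intro 𝔐 v V hV
  obtain ⟨A', B', hA, hB, hBS, hcA, hcB, hC⟩ := closure (wit1 𝔐 (V 0)) (wit2 𝔐 (V 0))
    (Set.range v ∪ {𝔐.zero, 𝔐.one}) (Set.range V)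
    ((Set.countable_range v).union ((Set.finite_singleton _).insert _).countable)
    (Set.countable_range V) 𝔐.S (by rintro _ ⟨X, rfl⟩; exact hV X) (wit2_mem 𝔐 (V 0) (hV 0))
  have h0 : 𝔐.zero ∈ A' := hA (Or.inr (by simp))
  have h1 : 𝔐.one ∈ A' := hA (Or.inr (by simp))
  have ha : ∀ a ∈ A', ∀ b ∈ A', 𝔐.add a b ∈ A' := by
    intro a haa b hb
    exact (hC (.inr true) [a, b] [] (by simp [haa, hb]) (by simp)).1
  have hm : ∀ a ∈ A', ∀ b ∈ A', 𝔐.mul a b ∈ A' := by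
    intro a haa b hb
    exact (hC (.inr false) [a, b] [] (by simp [haa, hb]) (by simp)).1
  refine ⟨sub 𝔐 A' B' h0 h1 ha hm, fun i => ⟨v i, hA (Or.inl ⟨i, rfl⟩)⟩,
    fun X => Subtype.val ⁻¹' (V X), hcA.to_subtype, hcB.image _,
    fun X => ⟨V X, hB ⟨X, rfl⟩, rfl⟩, ?_, ?_⟩
  · intro φ
    exact main 𝔐 (V 0) h0 h1 ha hm hBS hC φ _ V (fun X => hB ⟨X, rfl⟩)
  · intro φ hφ w W hW
    choose W' hW' hWW using hW
    have e : W = fun X => (Subtype.val ⁻¹' (W' X) : Set A') := by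
      funext X
      exact (hWW X).symm
    rw [e]
    exact (main 𝔐 (V 0) h0 h1 ha hm hBS hC φ w W' hW').2 (hφ _ _ fun X => hBS (hW' X))

end Pool.Agent.OVW
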