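import Pool.Agent.OVW.A.M

/-!
# Block A3: the ordered variable word theorem, from Worlds to formulas
-/

namespace Pool.Agent.OVW

/-! ### Satisfaction over `M` -/

section

variable {M : Type} [Arith M]

/-- Satisfaction in `toModel M S`. -/
def SatM (S : Set (Set M)) (φ : Form) (v : ℕ → M) (V : ℕ → Set M) : Prop :=
  φ.Sat (toModel M S) v V

variable {S : Set (Set M)} {v : ℕ → M} {V : ℕ → Set M}

theorem satM_eq (s t : Term) : SatM S (.eq s t) v V ↔ tev S s v = tev S t v := Iff.rfl
theorem satM_lt (s t : Term) : SatM S (.lt s t) v V ↔ tev S s v < tev S t v := Iff.rfl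
theorem satM_mem (s : Term) (X : ℕ) : SatM S (.mem s X) v V ↔ tev S s v ∈ V X := Iff.rfl
theorem satM_neg (φ : Form) : SatM S (.neg φ) v V ↔ ¬ SatM S φ v V := Iff.rfl
theorem satM_and (φ ψ : Form) : SatM S (.and φ ψ) v V ↔ SatM S φ v V ∧ SatM S ψ v V := Iff.rfl
theorem satM_or (φ ψ : Form) : SatM S (.or φ ψ) v V ↔ SatM S φ v V ∨ SatM S ψ v V := Iff.rfl
theorem satM_imp (φ ψ : Form) : SatM S (.imp φ ψ) v V ↔ (SatM S φ v V → SatM S ψ v V) := Iff.rfl
theorem satM_all (i : ℕ) (φ : Form) :
    SatM S (.all i φ) v V ↔ ∀ a : M, SatM S φ (Function.update v i a) V := Iff.rfl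
theorem satM_ex (i : ℕ) (φ : Form) :
    SatM S (.ex i φ) v V ↔ ∃ a : M, SatM S φ (Function.update v i a) V := Iff.rfl
theorem satM_allSet (X : ℕ) (φ : Form) :
    SatM S (.allSet X φ) v V ↔ ∀ A ∈ S, SatM S φ v (Function.update V X A) := Iff.rfl
theorem satM_exSet (X : ℕ) (φ : Form) :
    SatM S (.exSet X φ) v V ↔ ∃ A ∈ S, SatM S φ v (Function.update V X A) := Iff.rfl
theorem tev_var (i : ℕ) : tev S (.var i) v = v i := rfl
theorem tev_zero : tev S .zero v = (0 : M) := rfl
theorem tev_one : tev S .one v = (1 : M) := rfl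
theorem tev_add (s t : Term) : tev S (.add s t) v = tev S s v + tev S t v := rfl
theorem tev_mul (s t : Term) : tev S (.mul s t) v = tev S s v * tev S t v := rfl
theorem tev_pairT (s t : Term) : tev S (pairT s t) v = pr (tev S s v) (tev S t v) := rfl
theorem tev_codeT (n s t : Term) :
    tev S (codeT n s t) v = pr (tev S n v) (pr (tev S s v) (tev S t v)) := rfl

theorem tev_above {t : Term} {k : ℕ} (ht : ∀ j, t.Occurs j → j < k) {i : ℕ} (hi : k ≤ i)
    (a : M) : tev S t (Function.update v i a) = tev S t v := by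
  apply Term.eval_update (toModel M S) t (v := v) a
  intro h
  have := ht i h
  omega

end

section

variable {M : Type} [Arith M] {R : Set (M → M)} [IsWorld R]

include R in
theorem a3_md_eq_iff (u b r : M) (hb : 0 < b) : md u b = r ↔ r < b ∧ ∃ q, u = b * q + r := by
  constructor
  · intro h
    have hw : HasWorld M := ⟨R, inferInstance⟩
    refine ⟨h ▸ md_lt u hb, dv u b, ?_⟩
    rw [← h]
    exact (dv_add_md u b).symm
  · rintro ⟨h, q, hq⟩
    exact md_unique h hq

variable (S : Set (Set M)) (V : ℕ → Set M)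

include R in
theorem sat_entry {u v i r : ℕ} (hu : u < 22) (hv : v < 22)
    (hi : i < 22) (hr : r < 22) (w : ℕ → M) :
    SatM S (entry 22 (x u) (x v) (x i) (x r)) w V ↔ bet (pr (w u) (w v)) (w i) = w r := by
  simp only [entry, satM_and, satM_lt, satM_ex, satM_eq, tev_add, tev_mul, tev_one, tev_var,
    bet, fs_pr, sn_pr]
  rw [a3_md_eq_iff (R := R) _ _ _ (lt_of_lt_of_le one_pos le_self_add)]
  simp only [Function.update_of_ne hu.ne, Function.update_of_ne hv.ne,
    Function.update_of_ne hi.ne, Function.update_of_ne hr.ne, Function.update_self]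

include R in
theorem sat_wordF {a n u v : ℕ} (ha : a < 20) (hn : n < 20)
    (hu : u < 20) (hv : v < 20) (w : ℕ → M) :
    SatM S (wordF (x a) (x n) (x u) (x v)) w V ↔ IsWd (w a) (w n) (pr (w u) (w v)) := by
  simp only [wordF, satM_all, satM_imp, satM_lt, satM_ex, satM_and, tev_var, IsWd]
  refine forall_congr' fun i => ?_
  rw [Function.update_self, Function.update_of_ne hn.ne]
  refine imp_congr Iff.rfl ?_
  have key : ∀ r : M, SatM S (entry 22 (x u) (x v) (x 20) (x 21))
      (Function.update (Function.update w 20 i) 21 r) V ↔ bet (pr (w u) (w v)) i = r := by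
    intro r
    rw [sat_entry (R := R) S V (by omega) (by omega) (by omega) (by omega)]
    rw [Function.update_self, Function.update_of_ne (by omega : u ≠ 21),
      Function.update_of_ne (by omega : v ≠ 21), Function.update_of_ne (by omega : (20 : ℕ) ≠ 21),
      Function.update_self, Function.update_of_ne (by omega : u ≠ 20),
      Function.update_of_ne (by omega : v ≠ 20)]
  simp only [key, Function.update_self, Function.update_of_ne (show a ≠ 21 by omega),
    Function.update_of_ne (show a ≠ 20 by omega)]
  constructor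
  · rintro ⟨r, h1, rfl⟩
    exact h1
  · intro h
    exact ⟨_, h, rfl⟩

include R in
theorem sat_sameF {n u v u' v' : ℕ} (hn : n < 20) (hu : u < 20) (hv : v < 20) (hu' : u' < 20)
    (hv' : v' < 20) (w : ℕ → M) : SatM S (sameF (x n) (x u) (x v) (x u') (x v')) w V ↔
      SameW (w n) (pr (w u) (w v)) (pr (w u') (w v')) := by
  simp only [sameF, satM_all, satM_imp, satM_lt, satM_ex, satM_and, tev_var, SameW]
  refine forall_congr' fun i => ?_
  rw [Function.update_self, Function.update_of_ne hn.ne]
  refine imp_congr Iff.rfl ?_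
  have key : ∀ u v : ℕ, u < 20 → v < 20 → ∀ r : M, SatM S (entry 22 (x u) (x v) (x 20) (x 21))
      (Function.update (Function.update w 20 i) 21 r) V ↔ bet (pr (w u) (w v)) i = r := by
    intro u v hu hv r
    rw [sat_entry (R := R) S V (by omega) (by omega) (by omega) (by omega)]
    rw [Function.update_self, Function.update_of_ne (by omega : u ≠ 21),
      Function.update_of_ne (by omega : v ≠ 21), Function.update_of_ne (by omega : (20 : ℕ) ≠ 21),
      Function.update_self, Function.update_of_ne (by omega : u ≠ 20),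
      Function.update_of_ne (by omega : v ≠ 20)]
  simp only [key u v hu hv, key u' v' hu' hv']
  constructor
  · rintro ⟨r, h1, h2⟩
    exact h1.trans h2.symm
  · intro h
    exact ⟨_, h, rfl⟩

include R in
/-- The meaning of `colouringF`. -/
theorem sat_colouringF (w : ℕ → M) :
    SatM S colouringF w V ↔
      (∀ n u v : M, IsWd (w 0) n (pr u v) → ∃ k < w 1, pr (pr n (pr u v)) k ∈ V 0) ∧
      ∀ n u v u' v' k k' : M, IsWd (w 0) n (pr u v) → IsWd (w 0) n (pr u' v') →
        SameW n (pr u v) (pr u' v') → pr (pr n (pr u v)) k ∈ V 0 →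
        pr (pr n (pr u' v')) k' ∈ V 0 → k = k' := by
  simp only [colouringF, satM_and, satM_all, satM_imp, satM_ex, satM_lt, satM_mem, satM_eq,
    tev_pairT, tev_codeT, tev_var]
  refine and_congr ?_ ?_
  · refine forall_congr' fun n => forall_congr' fun u => forall_congr' fun v => ?_
    rw [sat_wordF (R := R) S V (by omega) (by omega) (by omega) (by omega)]
    simp
  · refine forall_congr' fun n => forall_congr' fun u => forall_congr' fun v =>
      forall_congr' fun u' => forall_congr' fun v' => forall_congr' fun k =>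
      forall_congr' fun k' => ?_
    rw [sat_wordF (R := R) S V (by omega) (by omega) (by omega) (by omega),
      sat_wordF (R := R) S V (by omega) (by omega) (by omega) (by omega),
      sat_sameF (R := R) S V (by omega) (by omega) (by omega) (by omega) (by omega)]
    simp

/-- The meaning of `infiniteWordF`. -/
theorem sat_infiniteWordF (w : ℕ → M) :
    SatM S infiniteWordF w V ↔
      ∀ i : M, ∃ r : M, (r < w 0 + 1 ∧ pr i r ∈ V 1) ∧ ∀ s : M, pr i s ∈ V 1 → s = r := by
  simp only [infiniteWordF, satM_and, satM_all, satM_imp, satM_ex, satM_lt, satM_mem, satM_eq,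
    tev_pairT, tev_var, tev_add, tev_one]
  simp

/-- The meaning of `startsF`. -/
theorem sat_startsF (w : ℕ → M) :
    SatM S startsF w V ↔
      (∀ i : M, ∃ j : M, i < j ∧ j ∈ V 2) ∧ (∀ i : M, i ∈ V 2 → pr i (w 0) ∈ V 1) ∧
      ∀ i : M, pr i (w 0) ∈ V 1 → ∃ j : M, j < i + 1 ∧ j ∈ V 2 := by
  simp only [startsF, satM_and, satM_all, satM_imp, satM_ex, satM_lt, satM_mem, satM_eq,
    tev_pairT, tev_var, tev_add, tev_one]
  simp

include R in
/-- The meaning of `monochromaticF`. -/
theorem sat_monochromaticF (w : ℕ → M) :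
    SatM S monochromaticF w V ↔
      ∀ n u v : M, n ∈ V 2 → IsWd (w 0) n (pr u v) →
        (∀ i r : M, i < n → r < w 0 → pr i r ∈ V 1 → bet (pr u v) i = r) →
        (∀ i j : M, i < n → pr i (w 0) ∈ V 1 → j < i + 1 → j ∈ V 2 →
          (∀ m : M, j < m → m < i + 1 → m ∉ V 2) → bet (pr u v) i = bet (pr u v) j) →
        pr (pr n (pr u v)) (w 3) ∈ V 0 := by
  simp only [monochromaticF, instanceF, satM_and, satM_all, satM_imp, satM_ex, satM_lt, satM_mem,
    satM_eq, satM_neg, tev_pairT, tev_codeT, tev_var, tev_add, tev_one]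
  refine forall_congr' fun n => forall_congr' fun u => forall_congr' fun v => ?_
  rw [sat_wordF (R := R) S V (by omega) (by omega) (by omega) (by omega)]
  have k1 : ∀ i r : M, SatM S (entry 22 (x 5) (x 6) (x 7) (x 8)) (Function.update (Function.update
      (Function.update (Function.update (Function.update w 4 n) 5 u) 6 v) 7 i) 8 r) V ↔
      bet (pr u v) i = r := by
    intro i r
    rw [sat_entry (R := R) S V (by omega) (by omega) (by omega) (by omega)]
    simp
  have k2 : ∀ i j : M, (∃ r : M, SatM S (entry 22 (x 5) (x 6) (x 7) (x 10)) (Function.update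
      (Function.update (Function.update (Function.update (Function.update (Function.update w 4 n)
        5 u) 6 v) 7 i) 8 j) 10 r) V ∧
      SatM S (entry 22 (x 5) (x 6) (x 8) (x 10)) (Function.update
      (Function.update (Function.update (Function.update (Function.update (Function.update w 4 n)
        5 u) 6 v) 7 i) 8 j) 10 r) V) ↔
      bet (pr u v) i = bet (pr u v) j := by
    intro i j
    simp only [sat_entry (R := R) S V (show 5 < 22 by omega) (show 6 < 22 by omega)
      (show 7 < 22 by omega) (show 10 < 22 by omega),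
      sat_entry (R := R) S V (show 5 < 22 by omega) (show 6 < 22 by omega)
      (show 8 < 22 by omega) (show 10 < 22 by omega)]
    simp [eq_comm]
  simp only [k1, k2]
  simp only [Function.update_apply]
  simp

end

/-! ### The solution -/

section

variable {M : Type} [Arith M] {R : Set (M → M)} [IsWorld R]

/-- The case of the empty alphabet. -/
theorem soln_zero {l : M} {f : M → M} (hi : Inst 0 l f) :
    Soln 0 l f (fun _ => 0) (fun k => k) := by
  refine ⟨fun _ => le_rfl, fun i h => absurd h not_lt_zero, fun k => lt_succ.2 le_rfl,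
    fun _ => rfl, f (pr 0 0), hi.lt 0 0 (fun i h => absurd h not_lt_zero), ?_⟩
  intro k c hc _
  have hk : k = 0 := by
    by_contra hk
    exact absurd (hc 0 (pos_iff.2 hk)) not_lt_zero
  subst hk
  exact hi.ext 0 c 0 hc fun i h => absurd h not_lt_zero

include R in
theorem mono_of_succ {p : M → M} (hp : p ∈ R) (h : ∀ k, p k < p (k + 1)) :
    ∀ j k, j < k → p j < p k := by
  intro j
  have h1 : Rec R (fun d : M => p j < p (j + (d + 1))) := by
    have hp' : Rec R p := hp
    have h2 : Rec R (fun d : M => p (j + (d + 1))) :=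
      Rec.comp (g := p) hp' (by fun_prop)
    exact Rec.lt (Rec.const (p j)) h2
  have h2 := Rec.induction h1 (by simpa using h j) (fun d hd => by
    have := h (j + (d + 1))
    rw [← add_assoc] at this
    rw [add_assoc] at this
    exact hd.trans (by simpa [add_assoc] using this))
  intro k hk
  obtain ⟨d, rfl⟩ := le_iff_exists_add.1 (succ_le.2 hk)
  have := h2 d
  rwa [show j + 1 + d = j + (d + 1) by ring]

include R in
theorem le_of_mono {p : M → M} (hp : p ∈ R) (h : ∀ k, p k < p (k + 1)) : ∀ k, k ≤ p k := by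
  have hp' : Rec R p := hp
  have h1 : Rec R (fun k : M => k ≤ p k) := Rec.le Rec.id hp'
  exact Rec.induction h1 zero_le (fun k hk => succ_le.2 (hk.trans_lt (h k)))

/-- The graph of a function of the World. -/
theorem graph_mem {h : M → M} (hh : h ∈ R) : {z : M | z = pr (fs z) (h (fs z))} ∈ SetsOf R := by
  apply mem_setsOf_of_rec
  have h1 : Rec R h := hh
  have h2 : Rec R (fun z : M => h (fs z)) := Rec.comp (g := h) h1 (by fun_prop)
  exact Rec.eq Rec.id (Rec.pr (Rec.fs Rec.id) h2)

theorem mem_graph {h : M → M} {i r : M} : pr i r ∈ {z : M | z = pr (fs z) (h (fs z))} ↔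
    r = h i := by
  simp

/-- The range of an increasing function of the World. -/
theorem range_mem {p : M → M} (hp : p ∈ R) : {z : M | ∃ k < z + 1, p k = z} ∈ SetsOf R := by
  apply mem_setsOf_of_rec
  have h1 : Rec R p := hp
  have h2 : Rec R (fun q : M × M => p q.2 = q.1) :=
    Rec.eq (Rec.comp (g := p) h1 (by fun_prop)) (by fun_prop)
  exact Rec.bex (n := fun z : M => z + 1) (P := fun z k => p k = z) (by fun_prop) h2

theorem t_OV_aux (hsol : ∀ a l f, 0 < a → f ∈ R → Inst a l f →
    ∃ h ∈ R, ∃ p ∈ R, Soln a l f h p) (w : ℕ → M) (V : ℕ → Set M) :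
    SatM (SetsOf R) ovwSentence w V := by
  have hsol' : ∀ a l f, f ∈ R → Inst a l f → ∃ h ∈ R, ∃ p ∈ R, Soln a l f h p := by
    intro a l f hf hi
    rcases (zero_le' a).eq_or_lt with h0 | h0
    · subst h0
      exact ⟨_, IsWorld.const 0, _, IsWorld.id, soln_zero hi⟩
    · exact hsol a l f h0 hf hi
  simp only [ovwSentence, satM_all, satM_allSet, satM_imp, satM_exSet, satM_and, satM_ex, satM_lt]
  intro a l X0 hX0
  rw [sat_colouringF (R := R)]
  simp only [Function.update_self, Function.update_of_ne (show (0 : ℕ) ≠ 1 by omega)]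
  rintro ⟨hc1, hc2⟩
  -- the colouring as a function
  have hbet : ∀ c i : M, bet (pr (fs c) (sn c)) i = bet c i := by
    intro c i
    simp [bet]
  have hIs : ∀ n c : M, IsWd a n (pr (fs c) (sn c)) ↔ IsWd a n c := by
    intro n c
    simp only [IsWd, hbet]
  let P : M → M → Prop := fun z k => pr (pr (fs z) (pr (fs (sn z)) (sn (sn z)))) k ∈ X0 ∨
    ¬ IsWd a (fs z) (sn z)
  have hP : Rec R (fun q : M × M => P q.1 q.2) := by
    apply Rec.or
    · exact Rec.comp (g := fun z : M => z ∈ X0) (a3_rec_mem hX0) (by fun_prop)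
    · apply Rec.not
      unfold IsWd
      fun_prop
  have htot : ∀ z, ∃ k, P z k := by
    intro z
    by_cases h : IsWd a (fs z) (sn z)
    · obtain ⟨k, -, hk⟩ := hc1 (fs z) (fs (sn z)) (sn (sn z)) ((hIs _ _).2 h)
      exact ⟨k, Or.inl hk⟩
    · exact ⟨0, Or.inr h⟩
  obtain ⟨hfR, hfs⟩ := Rec.mu_aux (P := P) hP htot
  let f : M → M := fun z => least (P z)
  have hf : f ∈ R := hfR
  have hf1 : ∀ n c : M, IsWd a n c → pr (pr n (pr (fs c) (sn c))) (f (pr n c)) ∈ X0 := by
    intro n c hc
    have := (hfs (pr n c)).1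
    simp only [P, fs_pr, sn_pr] at this
    rcases this with h | h
    · simpa [f, P] using h
    · exact absurd hc h
  have hi : Inst a l f := by
    constructor
    · intro n c hc
      obtain ⟨k, hk, hk'⟩ := hc1 n (fs c) (sn c) ((hIs _ _).2 hc)
      have h1 : f (pr n c) ≤ k := by
        by_contra hlt
        push Not at hlt
        refine (hfs (pr n c)).2 k hlt (Or.inl ?_)
        simpa using hk'
      exact h1.trans_lt hk
    · intro n c c' hc hs
      have hc' : IsWd a n c' := fun i hi => (hs i hi) ▸ hc i hi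
      exact hc2 n _ _ _ _ _ _ ((hIs _ _).2 hc) ((hIs _ _).2 hc')
        (fun i hi => by rw [hbet, hbet]; exact hs i hi) (hf1 n c hc) (hf1 n c' hc')
  obtain ⟨h, hh, p, hp, hS⟩ := hsol' a l f hf hi
  obtain ⟨col, hcol, hmch⟩ := hS.mch
  have hmono := mono_of_succ (R := R) hp hS.mono
  have hle := le_of_mono (R := R) hp hS.mono
  have hrange : ∀ z : M, z ∈ {z : M | ∃ k < z + 1, p k = z} ↔ ∃ k, p k = z := by
    intro z
    constructor
    · rintro ⟨k, -, hk⟩
      exact ⟨k, hk⟩
    · rintro ⟨k, hk⟩
      exact ⟨k, lt_succ.2 (hk ▸ hle k), hk⟩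
  refine ⟨{z : M | z = pr (fs z) (h (fs z))}, graph_mem hh, {z : M | ∃ k < z + 1, p k = z},
    range_mem hp, ?_, ?_, col, ?_⟩
  · rw [sat_infiniteWordF]
    intro i
    refine ⟨h i, ⟨?_, ?_⟩, ?_⟩
    · simpa using lt_succ.2 (hS.le i)
    · simp
    · intro s hs
      simpa using hs
  · rw [sat_startsF]
    simp only [Function.update_self, Function.update_of_ne (show (0 : ℕ) ≠ 1 by omega),
      Function.update_of_ne (show (1 : ℕ) ≠ 2 by omega), hrange, mem_graph]
    refine ⟨?_, ?_, ?_⟩
    · intro i
      refine ⟨p (i + 1), ?_, i + 1, rfl⟩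
      exact (lt_succ.2 le_rfl).trans_le (hle (i + 1))
    · rintro i ⟨k, rfl⟩
      exact (hS.star k).symm
    · intro i hia
      refine ⟨p 0, ?_, 0, rfl⟩
      apply lt_succ.2
      by_contra hlt
      push Not at hlt
      exact hS.first i hlt hia.symm
  · rw [sat_monochromaticF (R := R)]
    simp only [Function.update_self, Function.update_of_ne (show (0 : ℕ) ≠ 1 by omega),
      Function.update_of_ne (show (0 : ℕ) ≠ 3 by omega),
      Function.update_of_ne (show (0 : ℕ) ≠ 2 by omega),
      Function.update_of_ne (show (1 : ℕ) ≠ 2 by omega), hrange, mem_graph]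
    refine ⟨?_, ?_⟩
    · simpa [tev_var] using hcol
    · rintro n u v ⟨k, rfl⟩ hw h1 h2
      have hin : InstOf a h p k (pr u v) := by
        constructor
        · intro i hi hia
          exact h1 i (h i) hi (lt_of_le_of_ne (hS.le i) hia) rfl
        · intro i hi hia j hj hj'
          refine h2 i (p j) hi hia.symm (lt_succ.2 hj) ⟨j, rfl⟩ ?_
          rintro m hm1 hm2 ⟨m', rfl⟩
          have e1 : j < m' := by
            by_contra hc
            push Not at hc
            rcases hc.eq_or_lt with e | e
            · subst e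
              exact lt_irrefl _ hm1
            · exact absurd (hmono _ _ e) (not_lt.2 hm1.le)
          have e2 : m' < j + 1 := by
            by_contra hc
            push Not at hc
            have : p (j + 1) ≤ p m' := by
              rcases hc.eq_or_lt with e | e
              · rw [e]
              · exact (hmono _ _ e).le
            exact absurd hj' (not_lt.2 (this.trans (lt_succ.1 hm2)))
          exact absurd e1 (not_lt.2 (lt_succ.1 e2))
      have h3 := hmch k (pr u v) hw hin
      have h4 := hf1 (p k) (pr u v) hw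
      simp only [fs_pr, sn_pr] at h4
      rw [h3] at h4
      exact h4

end

theorem t_OV : StmtOV := by
  intro M _ R hR hsol w V _
  have := hR
  exact t_OV_aux hsol w V

end Pool.Agent.OVW
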