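import Pool.Agent.OVW.A.M

/-!
# Block A3, module UN: the union of a chain of Worlds
-/

namespace Pool.Agent.OVW

theorem UN.mono {M : Type} [Arith M] {R : ℕ → Set (M → M)} (h : ∀ n, R n ⊆ R (n + 1)) :
    ∀ m n, m ≤ n → R m ⊆ R n := by
  intro m n hmn
  induction hmn with
  | refl => exact subset_rfl
  | step _ ih => exact ih.trans (h _)

theorem t_UN : StmtUN := by
  intro M _ R hm hW hS
  have hle := UN.mono hm
  have hU : ∀ {n : ℕ} {f : M → M}, f ∈ R n → f ∈ ⋃ n, R n := fun {n} {f} hf =>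
    Set.mem_iUnion.2 ⟨n, hf⟩
  have h2 : ∀ f ∈ ⋃ n, R n, ∀ g ∈ ⋃ n, R n, ∃ n, f ∈ R n ∧ g ∈ R n := by
    intro f hf g hg
    obtain ⟨m, hm'⟩ := Set.mem_iUnion.1 hf
    obtain ⟨n, hn'⟩ := Set.mem_iUnion.1 hg
    exact ⟨max m n, hle _ _ (le_max_left m n) hm', hle _ _ (le_max_right m n) hn'⟩
  constructor
  · refine ⟨?_, ?_, ?_, ?_, ?_, ?_, ?_, ?_, ?_, ?_, ?_, ?_⟩
    · exact fun c => hU ((hW 0).const c)
    · exact hU (hW 0).id
    · intro f hf g hg
      obtain ⟨n, h3, h4⟩ := h2 f hf g hg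
      exact hU ((hW n).comp f h3 g h4)
    · intro f hf g hg
      obtain ⟨n, h3, h4⟩ := h2 f hf g hg
      exact hU ((hW n).pair f h3 g h4)
    · exact hU (hW 0).fs
    · exact hU (hW 0).sn
    · exact hU (hW 0).add
    · exact hU (hW 0).mul
    · exact hU (hW 0).lt
    · intro f hf ha
      obtain ⟨n, hn⟩ := Set.mem_iUnion.1 hf
      obtain ⟨g, hg, hg'⟩ := (hW n).mu f hn ha
      exact ⟨g, hU hg, hg'⟩
    · intro f hf
      obtain ⟨n, hn⟩ := Set.mem_iUnion.1 hf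
      exact (hW n).ind f hn
    · intro f hf
      obtain ⟨n, hn⟩ := Set.mem_iUnion.1 hf
      exact (hW n).beta f hn
  · intro f hf
    obtain ⟨n, hn⟩ := Set.mem_iUnion.1 hf
    exact hS n f hn

end Pool.Agent.OVW
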