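import Pool.Agent.OVW.A3Final
import Pool.Agent.OVW.A.AR
import Pool.Agent.OVW.A.LS
import Pool.Agent.OVW.A.OV
import Pool.Agent.OVW.A.JC
import Pool.Agent.OVW.A.UN
import Pool.Agent.OVW.A2W
import Pool.Agent.OVW.A2D
import Pool.Agent.OVW.A2U
import Pool.Agent.OVW.A2J
import Pool.Agent.OVW.A2CT
import Pool.Agent.OVW.H.Ext

/-!
# The conservation theorem from the forcing theorem
-/

namespace Pool.Agent.OVW

/-- The conservation theorem from the forcing theorem of block C. -/
theorem conservation_of_FO (hFO : StmtFO) : Pi11Conservative theoryT theoryS :=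
  conservation_of t_AR t_LS t_CO t_C1' t_M t_OV stmtW stmtU stmtJ stmtCT hFO
    (t_JC stmtW stmtEXT stmtSIG) stmtS2 t_UN

end Pool.Agent.OVW
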