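import Pool.Agent.OVW.Lib2
import Pool.Agent.OVW.A3Defs

/-!
# Block A3: recursive functions of assignments
-/

namespace Pool.Agent.OVW

section

variable {M : Type} [Arith M]

/-- The infinite sequence with the code `m`. -/
noncomputable def dcd (m : M) : ℕ → M
  | 0 => fs m
  | n + 1 => dcd (sn m) n

theorem dcd_zero (m : M) : dcd m 0 = fs m := rfl
theorem dcd_succ (m : M) (n : ℕ) : dcd m (n + 1) = dcd (sn m) n := rfl

theorem dcd_pr (x m : M) : dcd (pr x m) = push x (dcd m) := by
  funext n
  cases n with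
  | zero => simp [dcd, push]
  | succ n => simp [dcd, push]

theorem dcd_cde (k : ℕ) : ∀ (v : ℕ → M), ∀ i < k, dcd (cde k v) i = v i := by
  induction k with
  | zero => intro v i hi; omega
  | succ k ih =>
    intro v i hi
    cases i with
    | zero => simp [cde, dcd]
    | succ i =>
      simp only [cde, dcd, sn_pr]
      exact ih (fun n => v (n + 1)) i (by omega)

/-- `F` depends on the first `k` values of the assignment only. -/
def Dep {M β : Type} (k : ℕ) (F : (ℕ → M) → β) : Prop :=
  ∀ v v' : ℕ → M, (∀ i < k, v i = v' i) → F v = F v'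

theorem Dep.mono {β : Type} {k l : ℕ} (h : k ≤ l) {F : (ℕ → M) → β} (hF : Dep k F) : Dep l F :=
  fun v v' hv => hF v v' fun i hi => hv i (lt_of_lt_of_le hi h)

/-- Recursive functions of assignments. -/
def RF (R : Set (M → M)) {β : Type} [Cod M β] (F : (ℕ → M) → β) : Prop :=
  (∃ k, Dep k F) ∧ Rec R (fun m : M => F (dcd m))

end

section

variable {M : Type} [Arith M] {R : Set (M → M)} [IsWorld R]
variable {β γ δ : Type} [Cod M β] [Cod M γ] [Cod M δ]

theorem RF.const (b : β) : RF R (fun _ => b) := ⟨⟨0, fun _ _ _ => rfl⟩, Rec.const b⟩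

theorem RF.var (i : ℕ) : RF R (fun v : ℕ → M => v i) := by
  refine ⟨⟨i + 1, fun v v' h => h i (Nat.lt_succ_self i)⟩, ?_⟩
  have : ∀ (i : ℕ) {f : M → M}, Rec R f → Rec R (fun m : M => dcd (f m) i) := by
    intro i
    induction i with
    | zero => intro f hf; simpa only [dcd] using Rec.fs hf
    | succ i ih => intro f hf; simpa only [dcd] using ih (Rec.sn hf)
  exact this i Rec.id

theorem RF.comp {g : β → γ} {F : (ℕ → M) → β} (hg : Rec R g) (hF : RF R F) :
    RF R (fun v => g (F v)) := by
  obtain ⟨⟨k, hk⟩, h⟩ := hF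
  exact ⟨⟨k, fun v v' hv => congrArg g (hk v v' hv)⟩, Rec.comp hg h⟩

theorem RF.prodMk {F : (ℕ → M) → β} {G : (ℕ → M) → γ} (hF : RF R F) (hG : RF R G) :
    RF R (fun v => (F v, G v)) := by
  obtain ⟨⟨k, hk⟩, h⟩ := hF
  obtain ⟨⟨l, hl⟩, h'⟩ := hG
  refine ⟨⟨max k l, fun v v' hv => ?_⟩, Rec.prodMk h h'⟩
  exact Prod.ext (hk.mono (le_max_left k l) v v' hv) (hl.mono (le_max_right k l) v v' hv)

theorem RF.comp2 {g : β → γ → δ} {F : (ℕ → M) → β} {G : (ℕ → M) → γ}
    (hg : Rec R (fun p : β × γ => g p.1 p.2)) (hF : RF R F) (hG : RF R G) :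
    RF R (fun v => g (F v) (G v)) :=
  RF.comp (g := fun p : β × γ => g p.1 p.2) hg (RF.prodMk hF hG)

theorem RF.add {F G : (ℕ → M) → M} (hF : RF R F) (hG : RF R G) : RF R (fun v => F v + G v) :=
  RF.comp2 (g := fun a b => a + b) (by fun_prop) hF hG

theorem RF.mul {F G : (ℕ → M) → M} (hF : RF R F) (hG : RF R G) : RF R (fun v => F v * G v) :=
  RF.comp2 (g := fun a b => a * b) (by fun_prop) hF hG

theorem RF.pr {F G : (ℕ → M) → M} (hF : RF R F) (hG : RF R G) : RF R (fun v => pr (F v) (G v)) :=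
  RF.comp2 (g := fun a b => OVW.pr a b) (by fun_prop) hF hG

theorem RF.fs {F : (ℕ → M) → M} (hF : RF R F) : RF R (fun v => fs (F v)) :=
  RF.comp (g := fun a => OVW.fs a) (by fun_prop) hF

theorem RF.sn {F : (ℕ → M) → M} (hF : RF R F) : RF R (fun v => sn (F v)) :=
  RF.comp (g := fun a => OVW.sn a) (by fun_prop) hF

theorem RF.lt {F G : (ℕ → M) → M} (hF : RF R F) (hG : RF R G) : RF R (fun v => F v < G v) :=
  RF.comp2 (g := fun a b => a < b) (by fun_prop) hF hG

theorem RF.le {F G : (ℕ → M) → M} (hF : RF R F) (hG : RF R G) : RF R (fun v => F v ≤ G v) :=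
  RF.comp2 (g := fun a b => a ≤ b) (by fun_prop) hF hG

theorem RF.eq {F G : (ℕ → M) → β} (hF : RF R F) (hG : RF R G) : RF R (fun v => F v = G v) :=
  RF.comp2 (g := fun a b => a = b) (by fun_prop) hF hG

theorem RF.not {P : (ℕ → M) → Prop} (hP : RF R P) : RF R (fun v => ¬ P v) :=
  RF.comp (g := fun a => ¬ a) (by fun_prop) hP

theorem RF.and {P Q : (ℕ → M) → Prop} (hP : RF R P) (hQ : RF R Q) : RF R (fun v => P v ∧ Q v) :=
  RF.comp2 (g := fun a b => a ∧ b) (by fun_prop) hP hQ

theorem RF.or {P Q : (ℕ → M) → Prop} (hP : RF R P) (hQ : RF R Q) : RF R (fun v => P v ∨ Q v) :=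
  RF.comp2 (g := fun a b => a ∨ b) (by fun_prop) hP hQ

theorem RF.imp {P Q : (ℕ → M) → Prop} (hP : RF R P) (hQ : RF R Q) : RF R (fun v => P v → Q v) :=
  RF.comp2 (g := fun a b => a → b) (by fun_prop) hP hQ

theorem a3_rec_mem {A : Set M} (hA : A ∈ SetsOf R) : Rec R (fun a : M => a ∈ A) := by
  have h : Rec R (fun a : M => chi A a ≠ 0) := Rec.ne (f := chi A) hA (Rec.const 0)
  have e : (fun a : M => chi A a ≠ 0) = fun a => a ∈ A := by
    funext a
    apply propext
    unfold chi
    by_cases ha : a ∈ A <;> simp [ha]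
  rwa [e] at h

theorem mem_setsOf_of_rec {A : Set M} (hA : Rec R (fun a : M => a ∈ A)) : A ∈ SetsOf R := by
  classical
  have h : Rec R (fun a : M => if a ∈ A then (1 : M) else 0) :=
    Rec.ite hA (Rec.const 1) (Rec.const 0)
  have e : chi A = fun a : M => if a ∈ A then (1 : M) else 0 := by
    funext a
    unfold chi
    by_cases ha : a ∈ A <;> simp [ha]
  change chi A ∈ R
  rw [e]
  exact h

theorem RF.mem {A : Set M} (hA : A ∈ SetsOf R) {F : (ℕ → M) → M} (hF : RF R F) :
    RF R (fun v => F v ∈ A) := RF.comp (g := fun a => a ∈ A) (a3_rec_mem hA) hF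

/-- Substitution. -/
theorem RF.subst {Q : (ℕ → M) → β} (hQ : RF R Q) {F : ℕ → (ℕ → M) → M} (hF : ∀ i, RF R (F i)) :
    RF R (fun v => Q (fun i => F i v)) := by
  obtain ⟨⟨k, hk⟩, h⟩ := hQ
  constructor
  · choose l hl using fun i => (hF i).1
    refine ⟨∑ i ∈ Finset.range k, l i, fun v v' hv => ?_⟩
    apply hk
    intro i hi
    refine (hl i).mono ?_ v v' hv
    exact Finset.single_le_sum (f := l) (fun _ _ => Nat.zero_le _) (Finset.mem_range.2 hi)
  · -- a recursive function which codes the first `k` values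
    have he : ∀ (k : ℕ) (F : ℕ → (ℕ → M) → M), (∀ i, RF R (F i)) →
        ∃ e : M → M, Rec R e ∧ ∀ m, ∀ i < k, dcd (e m) i = F i (dcd m) := by
      intro k
      induction k with
      | zero => intro F _; exact ⟨fun m => m, Rec.id, fun m i hi => by omega⟩
      | succ k ih =>
        intro F hF
        obtain ⟨e, he, he'⟩ := ih (fun i => F (i + 1)) (fun i => hF (i + 1))
        refine ⟨fun m => OVW.pr (F 0 (dcd m)) (e m), Rec.pr (hF 0).2 he, fun m i hi => ?_⟩
        cases i with
        | zero => simp [dcd]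
        | succ i =>
          simp only [dcd, sn_pr]
          exact he' m i (by omega)
    obtain ⟨e, he, he'⟩ := he k F hF
    have h1 : Rec R (fun m : M => Q (dcd (e m))) := Rec.comp (g := fun m : M => Q (dcd m)) h he
    have h2 : (fun m : M => Q (dcd (e m))) = fun m : M => Q (fun i => F i (dcd m)) := by
      funext m
      apply hk
      intro i hi
      exact he' m i hi
    rwa [h2] at h1

theorem RF.push {Q : (ℕ → M) → β} (hQ : RF R Q) {F : (ℕ → M) → M} (hF : RF R F) :
    RF R (fun v => Q (push (F v) v)) := by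
  have h := RF.subst hQ (F := fun i v => OVW.push (F v) v i) (fun i => by
    cases i with
    | zero => exact hF
    | succ i => exact RF.var i)
  exact h

theorem RF.update {Q : (ℕ → M) → β} (hQ : RF R Q) (i : ℕ) {F : (ℕ → M) → M} (hF : RF R F) :
    RF R (fun v => Q (Function.update v i (F v))) := by
  have h := RF.subst hQ (F := fun j v => Function.update v i (F v) j) (fun j => by
    by_cases hj : j = i
    · subst hj
      simpa using hF
    · simpa [Function.update_of_ne hj] using RF.var j)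
  exact h

/-- Bounded universal quantifiers. -/
theorem RF.ball {N : (ℕ → M) → M} (hN : RF R N) {P : (ℕ → M) → Prop} (hP : RF R P) :
    RF R (fun v => ∀ a < N v, P (OVW.push a v)) := by
  obtain ⟨⟨k, hk⟩, h⟩ := hN
  obtain ⟨⟨l, hl⟩, h'⟩ := hP
  constructor
  · refine ⟨max k l, fun v v' hv => ?_⟩
    have e1 : N v = N v' := hk.mono (le_max_left k l) v v' hv
    have e2 : ∀ a, P (OVW.push a v) = P (OVW.push a v') := by
      intro a
      apply hl
      intro i hi
      cases i with
      | zero => rfl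
      | succ i => exact hv i (by omega)
    simp only [e1, e2]
  · have h1 : Rec R (fun p : M × M => P (dcd (OVW.pr p.2 p.1))) :=
      Rec.comp (g := fun m : M => P (dcd m)) h' (by fun_prop)
    have h2 := Rec.ball (n := fun m : M => N (dcd m)) (P := fun m a => P (dcd (OVW.pr a m))) h h1
    simpa only [dcd_pr] using h2

theorem RF.bex {N : (ℕ → M) → M} (hN : RF R N) {P : (ℕ → M) → Prop} (hP : RF R P) :
    RF R (fun v => ∃ a < N v, P (OVW.push a v)) := by
  have h := RF.not (RF.ball hN (RF.not hP))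
  have e : (fun v : ℕ → M => ¬ ∀ a < N v, ¬ P (OVW.push a v)) =
      fun v => ∃ a < N v, P (OVW.push a v) := by
    funext v
    apply propext
    push Not
    rfl
  rwa [e] at h

/-- Back to unary functions. -/
theorem RF.rec1 {Q : (ℕ → M) → β} (hQ : RF R Q) (v : ℕ → M) :
    Rec R (fun a : M => Q (OVW.push a v)) := by
  obtain ⟨⟨k, hk⟩, h⟩ := hQ
  have h1 : Rec R (fun a : M => Q (dcd (OVW.pr a (cde k v)))) :=
    Rec.comp (g := fun m : M => Q (dcd m)) h (by fun_prop)
  have e : (fun a : M => Q (dcd (OVW.pr a (cde k v)))) = fun a => Q (OVW.push a v) := by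
    funext a
    rw [dcd_pr]
    apply hk
    intro i hi
    cases i with
    | zero => rfl
    | succ i => exact dcd_cde k v i (by omega)
  rwa [e] at h1

/-- A recursive function of assignments evaluated at recursive functions. -/
theorem RF.rec {α : Type} [Cod M α] {Q : (ℕ → M) → β} (hQ : RF R Q) {F : ℕ → α → M}
    (hF : ∀ i, Rec R (F i)) : Rec R (fun a : α => Q (fun i => F i a)) := by
  obtain ⟨⟨k, hk⟩, h⟩ := hQ
  have he : ∀ (k : ℕ) (F : ℕ → α → M), (∀ i, Rec R (F i)) →
      ∃ e : α → M, Rec R e ∧ ∀ m, ∀ i < k, dcd (e m) i = F i m := by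
    intro k
    induction k with
    | zero => intro F _; exact ⟨fun _ => 0, Rec.const 0, fun m i hi => by omega⟩
    | succ k ih =>
      intro F hF
      obtain ⟨e, he, he'⟩ := ih (fun i => F (i + 1)) (fun i => hF (i + 1))
      refine ⟨fun m => OVW.pr (F 0 m) (e m), Rec.pr (hF 0) he, fun m i hi => ?_⟩
      cases i with
      | zero => simp [dcd]
      | succ i =>
        simp only [dcd, sn_pr]
        exact he' m i (by omega)
  obtain ⟨e, he, he'⟩ := he k F hF
  have h1 : Rec R (fun a : α => Q (dcd (e a))) := Rec.comp (g := fun m : M => Q (dcd m)) h he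
  have h2 : (fun a : α => Q (dcd (e a))) = fun a => Q (fun i => F i a) := by
    funext a
    apply hk
    intro i hi
    exact he' a i hi
  rwa [h2] at h1

theorem RF.recP {P : (ℕ → M) → Prop} (hP : RF R P) : RecP R P := by
  obtain ⟨⟨k, hk⟩, h⟩ := hP
  refine ⟨k, fun m => enc (¬ P (dcd m)), Rec.not h, fun v => ?_⟩
  rw [enc_eq_zero, not_not]
  have : P v = P (dcd (cde k v)) := hk _ _ fun i hi => (dcd_cde k v i hi).symm
  rw [this]

theorem RecP.rf {P : (ℕ → M) → Prop} (hP : RecP R P) : RF R P := by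
  obtain ⟨k, f, hf, h⟩ := hP
  have hc : ∀ k, RF R (fun v : ℕ → M => cde k v) := by
    intro k
    induction k with
    | zero => exact RF.const 0
    | succ k ih =>
      simp only [cde]
      exact RF.pr (RF.var 0) (RF.subst (Q := fun v => cde k v) ih (F := fun i v => v (i + 1))
        fun i => RF.var (i + 1))
  have h1 : RF R (fun v : ℕ → M => f (cde k v) = 0) :=
    RF.eq (RF.comp (g := f) hf (hc k)) (RF.const 0)
  have e : (fun v : ℕ → M => f (cde k v) = 0) = P := by
    funext v
    exact propext (h v).symm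
  rwa [e] at h1

theorem rf_tm (t : Tm M) : RF R (fun v => t.ev v) := by
  induction t with
  | var i => exact RF.var i
  | cst c => exact RF.const c
  | add s t hs ht => exact RF.add hs ht
  | mul s t hs ht => exact RF.mul hs ht

theorem rf_D0 {X : Set M} (hX : X ∈ SetsOf R) {P : (ℕ → M) → Prop} (hP : D0 X P) : RF R P := by
  induction hP with
  | eq s t => exact RF.eq (rf_tm s) (rf_tm t)
  | lt s t => exact RF.lt (rf_tm s) (rf_tm t)
  | mem t => exact RF.mem hX (rf_tm t)
  | not _ ih => exact RF.not ih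
  | and _ _ ih1 ih2 => exact RF.and ih1 ih2
  | ball t _ ih => exact RF.ball (rf_tm t) ih

end

theorem t_D0 : StmtD0 := fun _ _ _ hR _ hX _ hP => have := hR; (rf_D0 hX hP).recP

end Pool.Agent.OVW
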