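import Pool.Agent.OVW.A3Defs

/-!
# Block A3: coincidence and substitution
-/

namespace Pool.Agent.OVW

theorem Term.eval_congr (𝔐 : Model) (t : Term) {v v' : ℕ → 𝔐.M}
    (h : ∀ i, t.Occurs i → v i = v' i) : t.eval 𝔐 v = t.eval 𝔐 v' := by
  induction t with
  | var i => exact h i rfl
  | zero => rfl
  | one => rfl
  | add s t hs ht =>
    simp only [Term.eval]
    rw [hs fun i hi => h i (Or.inl hi), ht fun i hi => h i (Or.inr hi)]
  | mul s t hs ht =>
    simp only [Term.eval]
    rw [hs fun i hi => h i (Or.inl hi), ht fun i hi => h i (Or.inr hi)]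

theorem Term.eval_update (𝔐 : Model) (t : Term) {v : ℕ → 𝔐.M} {i : ℕ} (a : 𝔐.M)
    (h : ¬ t.Occurs i) : t.eval 𝔐 (Function.update v i a) = t.eval 𝔐 v := by
  apply Term.eval_congr
  intro j hj
  rw [Function.update_of_ne]
  rintro rfl
  exact h hj

/-- The value of a formula depends on the values of its free set variables only. -/
theorem Form.sat_congr_set (𝔐 : Model) (φ : Form) : ∀ (v : ℕ → 𝔐.M) (V V' : ℕ → Set 𝔐.M),
    (∀ X, φ.FreeSet X → V X = V' X) → (φ.Sat 𝔐 v V ↔ φ.Sat 𝔐 v V') := by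
  induction φ with
  | eq s t => intro v V V' _; exact Iff.rfl
  | lt s t => intro v V V' _; exact Iff.rfl
  | mem s X =>
    intro v V V' h
    simp only [Form.Sat]
    rw [h X rfl]
  | neg φ ih =>
    intro v V V' h
    simp only [Form.Sat]
    rw [ih v V V' h]
  | and φ ψ ih1 ih2 =>
    intro v V V' h
    simp only [Form.Sat]
    rw [ih1 v V V' fun X hX => h X (Or.inl hX), ih2 v V V' fun X hX => h X (Or.inr hX)]
  | or φ ψ ih1 ih2 =>
    intro v V V' h
    simp only [Form.Sat]
    rw [ih1 v V V' fun X hX => h X (Or.inl hX), ih2 v V V' fun X hX => h X (Or.inr hX)]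
  | imp φ ψ ih1 ih2 =>
    intro v V V' h
    simp only [Form.Sat]
    rw [ih1 v V V' fun X hX => h X (Or.inl hX), ih2 v V V' fun X hX => h X (Or.inr hX)]
  | all i φ ih =>
    intro v V V' h
    simp only [Form.Sat]
    exact forall_congr' fun a => ih _ V V' h
  | ex i φ ih =>
    intro v V V' h
    simp only [Form.Sat]
    exact exists_congr fun a => ih _ V V' h
  | allSet X φ ih =>
    intro v V V' h
    simp only [Form.Sat]
    refine forall_congr' fun A => forall_congr' fun _ => ih _ _ _ fun Y hY => ?_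
    by_cases hYX : Y = X
    · subst hYX; simp
    · rw [Function.update_of_ne hYX, Function.update_of_ne hYX]
      exact h Y ⟨hYX, hY⟩
  | exSet X φ ih =>
    intro v V V' h
    simp only [Form.Sat]
    refine exists_congr fun A => and_congr_right fun _ => ih _ _ _ fun Y hY => ?_
    by_cases hYX : Y = X
    · subst hYX; simp
    · rw [Function.update_of_ne hYX, Function.update_of_ne hYX]
      exact h Y ⟨hYX, hY⟩

theorem Form.exists_bound (φ : Form) : ∃ k, ∀ X, φ.FreeSet X → X < k := by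
  induction φ with
  | eq s t => exact ⟨0, fun X h => h.elim⟩
  | lt s t => exact ⟨0, fun X h => h.elim⟩
  | mem s X => exact ⟨X + 1, fun Y h => by
      have : Y = X := h
      omega⟩
  | neg φ ih => exact ih
  | and φ ψ ih1 ih2 =>
    obtain ⟨k1, h1⟩ := ih1
    obtain ⟨k2, h2⟩ := ih2
    refine ⟨max k1 k2, fun X h => ?_⟩
    rcases h with h | h
    · have := h1 X h; omega
    · have := h2 X h; omega
  | or φ ψ ih1 ih2 =>
    obtain ⟨k1, h1⟩ := ih1
    obtain ⟨k2, h2⟩ := ih2
    refine ⟨max k1 k2, fun X h => ?_⟩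
    rcases h with h | h
    · have := h1 X h; omega
    · have := h2 X h; omega
  | imp φ ψ ih1 ih2 =>
    obtain ⟨k1, h1⟩ := ih1
    obtain ⟨k2, h2⟩ := ih2
    refine ⟨max k1 k2, fun X h => ?_⟩
    rcases h with h | h
    · have := h1 X h; omega
    · have := h2 X h; omega
  | all i φ ih => exact ih
  | ex i φ ih => exact ih
  | allSet X φ ih =>
    obtain ⟨k, h⟩ := ih
    exact ⟨k, fun Y hY => h Y hY.2⟩
  | exSet X φ ih =>
    obtain ⟨k, h⟩ := ih
    exact ⟨k, fun Y hY => h Y hY.2⟩

theorem t_CO : StmtCO := by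
  intro φ
  obtain ⟨k, hk⟩ := φ.exists_bound
  exact ⟨k, fun 𝔐 v V V' h => Form.sat_congr_set 𝔐 φ v V V' fun X hX => h X (hk X hX)⟩

theorem Term.eval_subst (𝔐 : Model) (t : Term) (v : ℕ → 𝔐.M) (i : ℕ) (r : Term) :
    (t.subst i r).eval 𝔐 v = t.eval 𝔐 (Function.update v i (r.eval 𝔐 v)) := by
  induction t with
  | var j =>
    by_cases h : j = i
    · subst h; simp [Term.subst, Term.eval]
    · simp [Term.subst, Term.eval, h]
  | zero => rfl
  | one => rfl
  | add s t hs ht =>
    simp only [Term.subst, Term.eval]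
    rw [hs, ht]
  | mul s t hs ht =>
    simp only [Term.subst, Term.eval]
    rw [hs, ht]

/-- The substitution lemma, for terms without variables other than `xᵢ`. -/
theorem Form.sat_subst (𝔐 : Model) (φ : Form) (i : ℕ) (r : Term) (hr : ∀ j, r.Occurs j → j = i) :
    ∀ (v : ℕ → 𝔐.M) (V : ℕ → Set 𝔐.M),
      (φ.subst i r).Sat 𝔐 v V ↔ φ.Sat 𝔐 (Function.update v i (r.eval 𝔐 v)) V := by
  have hq : ∀ (j : ℕ) (v : ℕ → 𝔐.M) (a : 𝔐.M), j ≠ i →
      Function.update (Function.update v j a) i (r.eval 𝔐 (Function.update v j a)) =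
      Function.update (Function.update v i (r.eval 𝔐 v)) j a := by
    intro j v a hj
    rw [Term.eval_update 𝔐 r a (fun h => hj (hr j h)), Function.update_comm hj]
  induction φ with
  | eq s t =>
    intro v V
    simp only [Form.subst, Form.Sat, Term.eval_subst]
  | lt s t =>
    intro v V
    simp only [Form.subst, Form.Sat, Term.eval_subst]
  | mem s X =>
    intro v V
    simp only [Form.subst, Form.Sat, Term.eval_subst]
  | neg φ ih =>
    intro v V
    simp only [Form.subst, Form.Sat, ih]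
  | and φ ψ ih1 ih2 =>
    intro v V
    simp only [Form.subst, Form.Sat, ih1, ih2]
  | or φ ψ ih1 ih2 =>
    intro v V
    simp only [Form.subst, Form.Sat, ih1, ih2]
  | imp φ ψ ih1 ih2 =>
    intro v V
    simp only [Form.subst, Form.Sat, ih1, ih2]
  | all j φ ih =>
    intro v V
    by_cases hj : j = i
    · subst hj
      simp [Form.subst, Form.Sat]
    · simp only [Form.subst, if_neg hj, Form.Sat, ih]
      exact forall_congr' fun a => by rw [hq j v a hj]
  | ex j φ ih =>
    intro v V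
    by_cases hj : j = i
    · subst hj
      simp [Form.subst, Form.Sat]
    · simp only [Form.subst, if_neg hj, Form.Sat, ih]
      exact exists_congr fun a => by rw [hq j v a hj]
  | allSet X φ ih =>
    intro v V
    simp only [Form.subst, Form.Sat, ih]
  | exSet X φ ih =>
    intro v V
    simp only [Form.subst, Form.Sat, ih]

theorem Form.sat_subst_zero (𝔐 : Model) (φ : Form) (i : ℕ) (v : ℕ → 𝔐.M) (V : ℕ → Set 𝔐.M) :
    (φ.subst i .zero).Sat 𝔐 v V ↔ φ.Sat 𝔐 (Function.update v i 𝔐.zero) V :=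
  Form.sat_subst 𝔐 φ i .zero (fun _ h => h.elim) v V

theorem Form.sat_subst_succ (𝔐 : Model) (φ : Form) (i : ℕ) (v : ℕ → 𝔐.M) (V : ℕ → Set 𝔐.M) :
    (φ.subst i (.add (x i) .one)).Sat 𝔐 v V ↔
      φ.Sat 𝔐 (Function.update v i (𝔐.add (v i) 𝔐.one)) V :=
  Form.sat_subst 𝔐 φ i _ (fun j h => by
    rcases h with h | h
    · exact h
    · exact h.elim) v V

/-- The induction axiom. -/
theorem sat_induction (𝔐 : Model) (i : ℕ) (φ : Form) (v : ℕ → 𝔐.M) (V : ℕ → Set 𝔐.M) :
    (induction i φ).Sat 𝔐 v V ↔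
      (φ.Sat 𝔐 (Function.update v i 𝔐.zero) V →
        (∀ a, φ.Sat 𝔐 (Function.update v i a) V →
          φ.Sat 𝔐 (Function.update v i (𝔐.add a 𝔐.one)) V) →
        ∀ a, φ.Sat 𝔐 (Function.update v i a) V) := by
  simp only [induction, Form.Sat, Form.sat_subst_zero, Form.sat_subst_succ, Function.update_self,
    Function.update_idem, and_imp]

theorem t_BA : StmtBA := by
  intro 𝔐 hne h
  obtain ⟨A, hA⟩ := hne
  have hb : ∀ φ ∈ basic, ∀ v : ℕ → 𝔐.M, φ.Sat 𝔐 v (fun _ => A) := fun φ hφ v =>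
    h φ (Or.inl hφ) v _ fun _ => hA
  let w : 𝔐.M → 𝔐.M → ℕ → 𝔐.M := fun a b i => if i = 0 then a else b
  refine ⟨?_, ?_, ?_, ?_, ?_, ?_, ?_, ?_, ?_⟩
  · intro a
    exact hb (.neg (.eq (.add (x 0) .one) .zero)) (by simp [basic]) (w a a)
  · intro a b
    exact hb (.imp (.eq (.add (x 0) .one) (.add (x 1) .one)) (.eq (x 0) (x 1)))
      (by simp [basic]) (w a b)
  · intro a
    exact hb (.eq (.add (x 0) .zero) (x 0)) (by simp [basic]) (w a a)
  · intro a b
    exact hb (.eq (.add (x 0) (.add (x 1) .one)) (.add (.add (x 0) (x 1)) .one))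
      (by simp [basic]) (w a b)
  · intro a
    exact hb (.eq (.mul (x 0) .zero) .zero) (by simp [basic]) (w a a)
  · intro a b
    exact hb (.eq (.mul (x 0) (.add (x 1) .one)) (.add (.mul (x 0) (x 1)) (x 0)))
      (by simp [basic]) (w a b)
  · intro a
    exact hb (.neg (.lt (x 0) .zero)) (by simp [basic]) (w a a)
  · intro a b
    have := hb (.iff (.lt (x 0) (.add (x 1) .one)) (.or (.lt (x 0) (x 1)) (.eq (x 0) (x 1))))
      (by simp [basic]) (w a b)
    exact ⟨this.1, this.2⟩
  · intro φ hφ v V hV h0 hs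
    exact (sat_induction 𝔐 0 φ v V).1 (h _ (Or.inr ⟨0, φ, hφ, rfl⟩) v V hV) h0 hs

end Pool.Agent.OVW
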