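import Pool.Agent.OVW.A.Lib
import Pool.Agent.OVW.A.Sem

/-!
# Block A3: the sets of a World with `Σ₂` induction are a model of `RCA₀ + IΣ₂`
-/

namespace Pool.Agent.OVW

section

variable {M : Type} [Arith M] {R : Set (M → M)} [IsWorld R]

/-- The value of a term. -/
def tev (S : Set (Set M)) (t : Term) (v : ℕ → M) : M := t.eval (toModel M S) v

theorem rf_term (S : Set (Set M)) (t : Term) : RF R (tev S t) := by
  induction t with
  | var i => exact RF.var i
  | zero => exact RF.const (0 : M)
  | one => exact RF.const (1 : M)
  | add s t hs ht => exact RF.add hs ht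
  | mul s t hs ht => exact RF.mul hs ht

/-- The assignment without its first value. -/
theorem rf_tail {β : Type} [Cod M β] {Q : (ℕ → M) → β} (hQ : RF R Q) (k : ℕ) :
    RF R (fun v : ℕ → M => Q (fun n => v (n + k))) :=
  RF.subst hQ (F := fun n v => v (n + k)) fun n => RF.var (n + k)

theorem rf_bounded (S : Set (Set M)) {V : ℕ → Set M} (hV : ∀ X, V X ∈ SetsOf R) {φ : Form}
    (h : φ.Bounded) : RF R (fun v : ℕ → M => φ.Sat (toModel M S) v V) := by
  induction h with
  | eq s t => exact RF.eq (β := M) (F := tev S s) (G := tev S t) (rf_term S s) (rf_term S t)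
  | lt s t => exact RF.lt (rf_term S s) (rf_term S t)
  | mem s X => exact RF.mem (hV X) (rf_term S s)
  | neg _ ih => exact RF.not ih
  | and _ _ ih1 ih2 => exact RF.and ih1 ih2
  | or _ _ ih1 ih2 => exact RF.or ih1 ih2
  | imp _ _ ih1 ih2 => exact RF.imp ih1 ih2
  | @all i t φ hi _ ih =>
    have h1 : RF R (fun w : ℕ → M =>
        φ.Sat (toModel M S) (Function.update (fun n => w (n + 1)) i (w 0)) V) := by
      refine RF.subst (Q := fun v : ℕ → M => φ.Sat (toModel M S) v V) ih
        (F := fun j w => Function.update (fun n => w (n + 1)) i (w 0) j) fun j => ?_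
      by_cases hj : j = i
      · subst hj
        simpa using RF.var 0
      · simpa [Function.update_of_ne hj] using RF.var (j + 1)
    have h2 := RF.ball (rf_term S t) h1
    have e : (fun v : ℕ → M => ∀ a < tev S t v, (fun w : ℕ → M =>
        φ.Sat (toModel M S) (Function.update (fun n => w (n + 1)) i (w 0)) V) (push a v)) =
        fun v : ℕ → M => (Form.all i (.imp (.lt (.var i) t) φ)).Sat (toModel M S) v V := by
      funext v
      apply propext
      simp only [Form.Sat, push, Term.eval, Function.update_self,
        Term.eval_update (toModel M S) t _ hi]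
      exact Iff.rfl
    rwa [e] at h2
  | @ex i t φ hi _ ih =>
    have h1 : RF R (fun w : ℕ → M =>
        φ.Sat (toModel M S) (Function.update (fun n => w (n + 1)) i (w 0)) V) := by
      refine RF.subst (Q := fun v : ℕ → M => φ.Sat (toModel M S) v V) ih
        (F := fun j w => Function.update (fun n => w (n + 1)) i (w 0) j) fun j => ?_
      by_cases hj : j = i
      · subst hj
        simpa using RF.var 0
      · simpa [Function.update_of_ne hj] using RF.var (j + 1)
    have h2 := RF.bex (rf_term S t) h1
    have e : (fun v : ℕ → M => ∃ a < tev S t v, (fun w : ℕ → M =>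
        φ.Sat (toModel M S) (Function.update (fun n => w (n + 1)) i (w 0)) V) (push a v)) =
        fun v : ℕ → M => (Form.ex i (.and (.lt (.var i) t) φ)).Sat (toModel M S) v V := by
      funext v
      apply propext
      simp only [Form.Sat, push, Term.eval, Function.update_self,
        Term.eval_update (toModel M S) t _ hi]
      exact Iff.rfl
    rwa [e] at h2

theorem sigma1_form (S : Set (Set M)) {V : ℕ → Set M} (hV : ∀ X, V X ∈ SetsOf R) {φ : Form}
    (h : IsSigma 1 φ) : ∃ Q : (ℕ → M) → Prop, RF R Q ∧
      ∀ v : ℕ → M, φ.Sat (toModel M S) v V ↔ ∃ y, Q (push y v) := by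
  change ExBlock Form.Bounded φ at h
  induction h with
  | @base φ h =>
    refine ⟨_, rf_tail (rf_bounded S hV h) 1, fun v => ?_⟩
    simp [push]
  | @ex φ i _ ih =>
    obtain ⟨Q, hQ, hQ'⟩ := ih
    refine ⟨fun w => Q (push (sn (w 0)) (Function.update (fun n => w (n + 1)) i (fs (w 0)))),
      ?_, fun v => ?_⟩
    · refine RF.subst hQ (F := fun j w => push (sn (w 0))
        (Function.update (fun n => w (n + 1)) i (fs (w 0))) j) fun j => ?_
      cases j with
      | zero => exact RF.sn (RF.var 0)
      | succ j =>
        simp only [push]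
        by_cases hj : j = i
        · subst hj
          simpa using RF.fs (RF.var 0)
        · simpa [Function.update_of_ne hj] using RF.var (j + 1)
    · simp only [Form.Sat, hQ', push]
      constructor
      · rintro ⟨(a : M), y, h⟩
        refine ⟨pr a y, ?_⟩
        simp only [fs_pr, sn_pr]
        exact h
      · rintro ⟨z, h⟩
        exact ⟨(fs z : M), (sn z : M), h⟩

theorem pi1_form (S : Set (Set M)) {V : ℕ → Set M} (hV : ∀ X, V X ∈ SetsOf R) {φ : Form}
    (h : IsPi 1 φ) : ∃ Q : (ℕ → M) → Prop, RF R Q ∧
      ∀ v : ℕ → M, φ.Sat (toModel M S) v V ↔ ∀ y, Q (push y v) := by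
  change AllBlock Form.Bounded φ at h
  induction h with
  | @base φ h =>
    refine ⟨_, rf_tail (rf_bounded S hV h) 1, fun v => ?_⟩
    simp [push]
  | @all φ i _ ih =>
    obtain ⟨Q, hQ, hQ'⟩ := ih
    refine ⟨fun w => Q (push (sn (w 0)) (Function.update (fun n => w (n + 1)) i (fs (w 0)))),
      ?_, fun v => ?_⟩
    · refine RF.subst hQ (F := fun j w => push (sn (w 0))
        (Function.update (fun n => w (n + 1)) i (fs (w 0))) j) fun j => ?_
      cases j with
      | zero => exact RF.sn (RF.var 0)
      | succ j =>
        simp only [push]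
        by_cases hj : j = i
        · subst hj
          simpa using RF.fs (RF.var 0)
        · simpa [Function.update_of_ne hj] using RF.var (j + 1)
    · simp only [Form.Sat, hQ', push]
      constructor
      · intro h z
        exact h (fs z : M) (sn z : M)
      · intro h (a : M) y
        have := h (pr a y)
        simp only [fs_pr, sn_pr] at this
        exact this

theorem sigma2_form (S : Set (Set M)) {V : ℕ → Set M} (hV : ∀ X, V X ∈ SetsOf R) {φ : Form}
    (h : IsSigma 2 φ) : ∃ Q : (ℕ → M) → Prop, RF R Q ∧
      ∀ v : ℕ → M, φ.Sat (toModel M S) v V ↔ ∃ y, ∀ z, Q (push z (push y v)) := by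
  change ExBlock (AllBlock Form.Bounded) φ at h
  induction h with
  | @base φ h =>
    obtain ⟨Q, hQ, hQ'⟩ := pi1_form S hV h
    refine ⟨fun w => Q (push (w 0) (fun n => w (n + 2))), ?_, fun v => ?_⟩
    · refine RF.subst hQ (F := fun j w => push (w 0) (fun n => w (n + 2)) j) fun j => ?_
      cases j with
      | zero => exact RF.var 0
      | succ j => exact RF.var (j + 2)
    · rw [hQ']
      simp only [push]
      constructor
      · intro h
        exact ⟨0, h⟩
      · rintro ⟨_, h⟩
        exact h
  | @ex φ i _ ih =>
    obtain ⟨Q, hQ, hQ'⟩ := ih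
    refine ⟨fun w => Q (push (w 0) (push (sn (w 1))
      (Function.update (fun n => w (n + 2)) i (fs (w 1))))), ?_, fun v => ?_⟩
    · refine RF.subst hQ (F := fun j w => push (w 0) (push (sn (w 1))
        (Function.update (fun n => w (n + 2)) i (fs (w 1)))) j) fun j => ?_
      cases j with
      | zero => exact RF.var 0
      | succ j =>
        cases j with
        | zero => exact RF.sn (RF.var 1)
        | succ j =>
          simp only [push]
          by_cases hj : j = i
          · subst hj
            simpa using RF.fs (RF.var 1)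
          · simpa [Function.update_of_ne hj] using RF.var (j + 2)
    · simp only [Form.Sat, hQ', push]
      constructor
      · rintro ⟨(a : M), y, h⟩
        refine ⟨pr a y, ?_⟩
        simp only [fs_pr, sn_pr]
        exact h
      · rintro ⟨z, h⟩
        exact ⟨(fs z : M), (sn z : M), h⟩

theorem true_basic (S : Set (Set M)) : (toModel M S).Models basic := by
  rintro φ hφ (v : ℕ → M) (V : ℕ → Set M) -
  simp only [basic, Set.mem_insert_iff, Set.mem_singleton_iff] at hφ
  rcases hφ with rfl | rfl | rfl | rfl | rfl | rfl | rfl | rfl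
  · change ¬ (v 0 : M) + 1 = 0
    exact ne_of_gt (pos_iff.2 (by
      intro h
      have := (add_eq_zero.1 h).2
      exact one_ne_zero this))
  · change (v 0 : M) + 1 = v 1 + 1 → (v 0 : M) = v 1
    exact fun h => add_right_cancel h
  · change (v 0 : M) + 0 = v 0
    exact add_zero _
  · change (v 0 : M) + (v 1 + 1) = v 0 + v 1 + 1
    exact (add_assoc _ _ _).symm
  · change (v 0 : M) * 0 = 0
    exact mul_zero _
  · change (v 0 : M) * (v 1 + 1) = v 0 * v 1 + v 0
    rw [mul_add, mul_one]
  · change ¬ (v 0 : M) < 0
    exact not_lt_zero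
  · change ((v 0 : M) < v 1 + 1 → (v 0 : M) < v 1 ∨ v 0 = v 1) ∧
      ((v 0 : M) < v 1 ∨ v 0 = v 1 → (v 0 : M) < v 1 + 1)
    constructor
    · intro h
      exact (lt_succ.1 h).lt_or_eq
    · intro h
      apply lt_succ.2
      rcases h with h | h
      · exact h.le
      · exact h.le

theorem true_ISigma1 (S : Set (Set M)) (hS : S ⊆ SetsOf R) :
    (toModel M S).Models (ISigma 1) := by
  rintro θ ⟨i, φ, hφ, rfl⟩ (v : ℕ → M) (V : ℕ → Set M) hV
  rw [sat_induction]
  obtain ⟨Q, hQ, hQ'⟩ := sigma1_form (R := R) S (fun X => hS (hV X)) hφ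
  let f : M → M := fun z => enc (¬ Q (push (sn z) (Function.update v i (fs z))))
  have hf : f ∈ R := by
    change Rec R f
    apply Rec.enc
    apply Rec.not
    refine RF.rec hQ (F := fun j z => push (sn z) (Function.update v i (fs z)) j) fun j => ?_
    cases j with
    | zero => exact Rec.sn Rec.id
    | succ j =>
      simp only [push]
      by_cases hj : j = i
      · subst hj
        simpa using Rec.fs Rec.id
      · simpa [Function.update_of_ne hj] using Rec.const (v j)
  have hfe : ∀ a y : M, f (pr a y) = 0 ↔ Q (push y (Function.update v i a)) := by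
    intro a y
    simp only [f, enc_eq_zero, not_not, fs_pr, sn_pr]
  have hind := IsWorld.ind (R := R) f hf
  simp only [hfe] at hind
  intro h0 hs a
  refine (hQ' _).2 (hind ((hQ' _).1 h0) (fun b hb => (hQ' _).1 (hs b ((hQ' _).2 hb))) a)

theorem true_ISigma2 (hR : Sig2 R) (S : Set (Set M)) (hS : S ⊆ SetsOf R) :
    (toModel M S).Models (ISigma 2) := by
  rintro θ ⟨i, φ, hφ, rfl⟩ (v : ℕ → M) (V : ℕ → Set M) hV
  rw [sat_induction]
  obtain ⟨Q, hQ, hQ'⟩ := sigma2_form (R := R) S (fun X => hS (hV X)) hφ
  let f : M → M := fun t => enc (¬ Q (push (sn (sn t)) (push (fs (sn t))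
    (Function.update v i (fs t)))))
  have hf : f ∈ R := by
    change Rec R f
    apply Rec.enc
    apply Rec.not
    refine RF.rec hQ (F := fun j t => push (sn (sn t)) (push (fs (sn t))
      (Function.update v i (fs t))) j) fun j => ?_
    cases j with
    | zero => exact Rec.sn (Rec.sn Rec.id)
    | succ j =>
      cases j with
      | zero => exact Rec.fs (Rec.sn Rec.id)
      | succ j =>
        simp only [push]
        by_cases hj : j = i
        · subst hj
          simpa using Rec.fs Rec.id
        · simpa [Function.update_of_ne hj] using Rec.const (v j)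
  have hfe : ∀ a y z : M, f (pr a (pr y z)) = 0 ↔
      Q (push z (push y (Function.update v i a))) := by
    intro a y z
    simp only [f, enc_eq_zero, not_not, fs_pr, sn_pr]
  have hind := hR f hf
  simp only [hfe] at hind
  intro h0 hs a
  refine (hQ' _).2 (hind ((hQ' _).1 h0) (fun b hb => (hQ' _).1 (hs b ((hQ' _).2 hb))) a)

theorem true_DeltaCA : (toModel M (SetsOf R)).Models DeltaCA := by
  rintro θ ⟨i, X, φ, ψ, hφ, hψ, hX, rfl⟩ (v : ℕ → M) (V : ℕ → Set M) hV
  obtain ⟨Q, hQ, hQ'⟩ := sigma1_form (R := R) (SetsOf R) hV hφ
  obtain ⟨P, hP, hP'⟩ := pi1_form (R := R) (SetsOf R) hV hψ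
  intro heq
  -- `heq : ∀ a, φ ↔ ψ`
  have heq' : ∀ a : M, (∃ y, Q (push y (Function.update v i a))) ↔
      ∀ y, P (push y (Function.update v i a)) := by
    intro a
    have h := heq a
    rw [← hQ', ← hP']
    exact ⟨h.1, h.2⟩
  let A : Set M := {a | φ.Sat (toModel M (SetsOf R)) (Function.update v i a) V}
  have hrec : ∀ {Q : (ℕ → M) → Prop}, RF R Q →
      Rec R (fun p : M × M => Q (push p.2 (Function.update v i p.1))) := by
    intro Q hQ
    refine RF.rec hQ (F := fun j (p : M × M) => push p.2 (Function.update v i p.1) j) fun j => ?_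
    cases j with
    | zero => exact Rec.snd_
    | succ j =>
      simp only [push]
      by_cases hj : j = i
      · subst hj
        simpa using Rec.fst_
      · simpa [Function.update_of_ne hj] using Rec.const (v j)
  have hA : A ∈ SetsOf R := by
    apply mem_setsOf_of_rec
    obtain ⟨g, hg, hg'⟩ := Rec.choice (R := R) (P := fun a y : M =>
      Q (push y (Function.update v i a)) ∨ ¬ P (push y (Function.update v i a)))
      (Rec.or (hrec hQ) (Rec.not (hrec hP))) (by
        intro a
        by_cases h : ∃ y, Q (push y (Function.update v i a))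
        · obtain ⟨y, hy⟩ := h
          exact ⟨y, Or.inl hy⟩
        · rw [heq' a] at h
          push Not at h
          obtain ⟨y, hy⟩ := h
          exact ⟨y, Or.inr hy⟩)
    have h1 : Rec R (fun a : M => Q (push (g a) (Function.update v i a))) :=
      Rec.comp (g := fun p : M × M => Q (push p.2 (Function.update v i p.1))) (hrec hQ)
        (Rec.prodMk Rec.id hg)
    have e : (fun a : M => Q (push (g a) (Function.update v i a))) = fun a => a ∈ A := by
      funext a
      apply propext
      change _ ↔ φ.Sat (toModel M (SetsOf R)) (Function.update v i a) V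
      rw [hQ']
      constructor
      · intro h
        exact ⟨_, h⟩
      · intro h
        rcases hg' a with h2 | h2
        · exact h2
        · exact absurd ((heq' a).1 h (g a)) h2
    rwa [e] at h1
  refine ⟨A, hA, fun a => ?_⟩
  have hc : φ.Sat (toModel M (SetsOf R)) (Function.update v i a) (Function.update V X A) ↔
      φ.Sat (toModel M (SetsOf R)) (Function.update v i a) V := by
    apply Form.sat_congr_set
    intro Y hY
    rw [Function.update_of_ne]
    rintro rfl
    exact hX hY
  simp only [Form.iff, Form.Sat, Term.eval, Function.update_self]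
  exact ⟨fun h => hc.2 h, fun h => hc.1 h⟩

end

theorem t_M : StmtM := by
  intro M _ R hR hR2 θ hθ
  have := hR
  rcases hθ with (h | h) | h
  · rcases h with h | h
    · exact true_basic _ θ h
    · exact true_ISigma1 (R := R) _ subset_rfl θ h
  · exact true_DeltaCA (R := R) θ h
  · exact true_ISigma2 (R := R) hR2 _ subset_rfl θ h

end Pool.Agent.OVW
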