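import Pool.Agent.OVW.A3Defs
import Pool.Agent.OVW.A2V

/-!
# Block A3, module S2: `Σ₂` induction for the World generated by a set
-/

namespace Pool.Agent.OVW

open A2

namespace S2

variable {M : Type} [Arith M] {X : Set M}

/-- The bounded matrix. -/
def Mat (Q : (ℕ → M) → Prop) (v : ℕ → M) : Prop :=
  ∀ z, z < v 0 → ∀ u, u < v 0 → ¬ Q (push u (push z (push (v 1) (push (v 2) fun _ => 0))))

/-- The substitution. -/
def tau (i : ℕ) (w : ℕ → M) : M :=
  match i with
  | 0 => w 0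
  | 1 => w 1
  | 2 => w 3
  | 3 => w 4
  | _ + 4 => 0

theorem isT_tau (i : ℕ) : IsT (tau (M := M) i) := by
  match i with
  | 0 => exact IsT.var 0
  | 1 => exact IsT.var 1
  | 2 => exact IsT.var 3
  | 3 => exact IsT.var 4
  | _ + 4 => exact IsT.cst 0

theorem tau_eq (w : ℕ → M) : (fun i => tau i w) =
    push (w 0) (push (w 1) (push (w 3) (push (w 4) fun _ => 0))) := by
  funext i
  match i with
  | 0 => rfl
  | 1 => rfl
  | 2 => rfl
  | 3 => rfl
  | _ + 4 => rfl

theorem d0_mat {Q : (ℕ → M) → Prop} (hQ : D0 X Q) : D0 X (Mat Q) := by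
  refine D0.ball' (F := fun v => v 0) (R := fun v z => ∀ u, u < v 0 →
    ¬ Q (push u (push z (push (v 1) (push (v 2) fun _ => 0))))) (IsT.var 0) ?_
  refine D0.ball' (F := fun v => v 1) (R := fun v u =>
    ¬ Q (push u (push (v 0) (push (v 2) (push (v 3) fun _ => 0))))) (IsT.var 1) ?_
  refine (hQ.subst (τ := tau) isT_tau).not.of_iff fun w => ?_
  rw [tau_eq]

end S2

theorem t_S2 (_hD : StmtD) : StmtS2 := by
  intro M _ X hI1 hI2 f hf h0 hs
  obtain ⟨Q, hQ, hQe⟩ := graph_ne hI1 hf (F := fun v : ℕ → M => pr (v 2) (pr (v 1) (v 0)))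
    ((IsT.var 2).pr ((IsT.var 1).pr (IsT.var 0)))
  have key : ∀ x y : M, (∀ z, f (pr x (pr y z)) = 0) ↔
      ∀ t, S2.Mat Q (push t (push y (push x fun _ => 0))) := by
    intro x y
    constructor
    · intro h t z _ u _ hq
      exact (hQe (push z (push y (push x fun _ => 0)))).2 ⟨u, hq⟩ (h z)
    · intro h z
      by_contra hne
      obtain ⟨u, hu⟩ := (hQe (push z (push y (push x fun _ => 0)))).1 hne
      refine h (z + u + 1) z ?_ u ?_ hu
      · exact A2.lt_succ.2 (self_le_add_right z u)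
      · exact A2.lt_succ.2 (self_le_add_left u z)
  intro x
  have h1 := hI2 (S2.Mat Q) (S2.d0_mat hQ) (fun _ => 0)
  have h2 : ∀ x : M, (∃ y, ∀ z, f (pr x (pr y z)) = 0) ↔
      ∃ y, ∀ t, S2.Mat Q (push t (push y (push x fun _ => 0))) :=
    fun x => exists_congr fun y => key x y
  simp only [h2] at h0 hs ⊢
  exact h1 h0 hs x

end Pool.Agent.OVW
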